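import Mathlib

/-!
Definitions: the Urysohn space, the coded Gromov-Hausdorff distance, the orbit pseudometric on
closed subsets of the Urysohn space, and Borel-uniformly continuous reducibility.
-/

namespace Pool.Agent.LibUrysohn

open Set Metric Topology TopologicalSpace
open scoped ENNReal

universe u v

/-- The Urysohn universal Polish metric space, by its standard characterisation: it is complete,
separable, and every one-point metric extension of a finite subset `S` (given by a Katetov
function `h` on `S`) is realised by a point of the space. The theorems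
`IsUrysohn.exists_isometryEquiv`, `exists_isUrysohn` and
`IsUrysohn.exists_equivariant_embedding` show that such a space is unique up to isometry, that it
exists, and that it contains an isometric copy of every separable metric space. -/
structure IsUrysohn (U : Type u) [MetricSpace U] : Prop where
  complete : CompleteSpace U
  separable : SeparableSpace U
  extension : ∀ (S : Finset U) (h : U → ℝ),
    (∀ x ∈ S, ∀ y ∈ S, |h x - h y| ≤ dist x y ∧ dist x y ≤ h x + h y) →
      ∃ z : U, ∀ x ∈ S, dist z x = h x

/-- The space of all metrics on the natural numbers. -/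
def NatMetric : Type :=
  {f : ℕ → ℕ → ℝ // (∀ m n, f m n = 0 ↔ m = n) ∧ (∀ m n, f m n = f n m) ∧
    ∀ m n k, f m k ≤ f m n + f n k}

/-- The topology on `NatMetric` inherited from the product topology. -/
instance : TopologicalSpace NatMetric :=
  TopologicalSpace.induced (fun f => f.1) (inferInstance : TopologicalSpace (ℕ → ℕ → ℝ))

/-- The set `ℕ`, with the metric `f`. -/
def Pt (_f : NatMetric) : Type := ℕ

noncomputable instance instMetricSpacePt (f : NatMetric) : MetricSpace (Pt f) where
  dist := fun m n => f.1 m n
  dist_self := fun m => (f.2.1 m m).2 rfl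
  dist_comm := fun m n => f.2.2.1 m n
  dist_triangle := fun m n k => f.2.2.2 m n k
  eq_of_dist_eq_zero := fun {m n} h => (f.2.1 m n).1 h

/-- The Polish space `M_f` coded by `f`: the completion of `(ℕ, f)`. -/
abbrev Cpl (f : NatMetric) : Type := UniformSpace.Completion (Pt f)

/-- The Gromov-Hausdorff distance between `M_f` and `M_g`: the infimum of the Hausdorff distances
between isometric copies of `M_f` and `M_g` inside a common metric space. -/
noncomputable def rhoGH (f g : NatMetric) : ℝ≥0∞ :=
  ⨅ (Z : Type) (_ : MetricSpace Z) (i : Cpl f → Z) (j : Cpl g → Z)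
    (_ : Isometry i) (_ : Isometry j), hausdorffEDist (range i) (range j)

/-- The orbit pseudometric on the closed subsets of `U`, for the Hausdorff distance and the
isometry group of `U`. -/
noncomputable def rhoIso (U : Type u) [MetricSpace U] (A B : Closeds U) : ℝ≥0∞ :=
  ⨅ (g : U ≃ᵢ U) (h : U ≃ᵢ U), hausdorffEDist (g '' (A : Set U)) (h '' (B : Set U))

/-- The Effros Borel structure on the closed subsets of `U`. -/
@[instance_reducible]
def effros (U : Type u) [TopologicalSpace U] : MeasurableSpace (Closeds U) :=
  MeasurableSpace.generateFrom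
    {S | ∃ V : Set U, IsOpen V ∧ S = {F : Closeds U | ((F : Set U) ∩ V).Nonempty}}

/-- Borel-uniformly continuous reducibility of pseudometrics with values in `[0, ∞]`. -/
def BUReducible {X : Type u} {Y : Type v} (mX : MeasurableSpace X) (mY : MeasurableSpace Y)
    (rX : X → X → ℝ≥0∞) (rY : Y → Y → ℝ≥0∞) : Prop :=
  ∃ f : X → Y, @Measurable X Y mX mY f ∧ ∀ ε : ℝ, 0 < ε →
    ∃ δX : ℝ, 0 < δX ∧ ∃ δY : ℝ, 0 < δY ∧ ∀ x y : X,
      (rX x y < ENNReal.ofReal δX → rY (f x) (f y) < ENNReal.ofReal ε) ∧
      (rY (f x) (f y) < ENNReal.ofReal δY → rX x y < ENNReal.ofReal ε)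

end Pool.Agent.LibUrysohn
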