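import Mathlib

/-!
Finitely supported Katetov functions on a metric space.
-/

namespace Pool.Agent.LibUrysohn

open Set Metric Topology TopologicalSpace

universe u v

/-- `f` is a Katetov function on the metric space `X`. -/
def IsKat {X : Type u} [MetricSpace X] (f : X → ℝ) : Prop :=
  (∀ x y, f x ≤ f y + dist x y) ∧ (∀ x y, dist x y ≤ f x + f y)

/-- `f` has finite support. -/
def FinSupp {X : Type u} [MetricSpace X] (f : X → ℝ) : Prop :=
  ∃ S : Finset X, ∀ x, ∃ s ∈ S, f s + dist s x ≤ f x

/-- The type of finitely supported Katetov functions. -/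
structure KSp (X : Type u) [MetricSpace X] : Type u where
  /-- the function -/
  fn : X → ℝ
  /-- it is a Katetov function -/
  kat : IsKat fn
  /-- it has finite support -/
  supp : FinSupp fn

section Basic

variable {X : Type u} [MetricSpace X]

theorem KSp.ext' {f g : KSp X} (h : ∀ x, f.fn x = g.fn x) : f = g := by
  have h2 : f.fn = g.fn := funext h
  cases f
  cases g
  simp only at h2
  subst h2
  rfl

theorem IsKat.nonneg {f : X → ℝ} (hf : IsKat f) (x : X) : 0 ≤ f x := by
  have := hf.2 x x
  rw [dist_self] at this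
  linarith

theorem IsKat.abs_sub_le {f : X → ℝ} (hf : IsKat f) (x y : X) : |f x - f y| ≤ dist x y := by
  rw [abs_le]
  constructor
  · have := hf.1 y x
    rw [dist_comm] at this
    linarith
  · have := hf.1 x y
    linarith

theorem IsKat.continuous {f : X → ℝ} (hf : IsKat f) : Continuous f := by
  have : LipschitzWith 1 f := by
    apply LipschitzWith.of_le_add
    intro x y
    exact hf.1 x y
  exact this.continuous

theorem IsKat.abs_sub_dist_le {f : X → ℝ} (hf : IsKat f) (x y : X) : |f x - dist y x| ≤ f y := by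
  rw [abs_le]
  constructor
  · have := hf.2 y x
    linarith
  · have := hf.1 x y
    rw [dist_comm] at this
    linarith

theorem isKat_dist (x : X) : IsKat (fun y => dist x y) := by
  constructor
  · intro a b
    have := dist_triangle x b a
    rw [dist_comm b a] at this
    linarith
  · intro a b
    have := dist_triangle a x b
    rw [dist_comm a x] at this
    linarith

theorem finSupp_dist (x : X) : FinSupp (fun y => dist x y) := by
  refine ⟨{x}, fun y => ⟨x, by simp, by simp⟩⟩

/-- The function `f - d(x₀, ·)` as a bounded continuous function. -/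
noncomputable def toBCF (x₀ : X) (f : KSp X) : BoundedContinuousFunction X ℝ :=
  BoundedContinuousFunction.ofNormedAddCommGroup (fun x => f.fn x - dist x₀ x)
    (f.kat.continuous.sub (continuous_const.dist continuous_id)) (f.fn x₀)
    (fun x => by rw [Real.norm_eq_abs]; exact f.kat.abs_sub_dist_le x x₀)

theorem toBCF_apply (x₀ : X) (f : KSp X) (x : X) : toBCF x₀ f x = f.fn x - dist x₀ x := rfl

theorem toBCF_injective (x₀ : X) : Function.Injective (toBCF x₀) := by
  intro f g h
  apply KSp.ext'
  intro x
  have := DFunLike.congr_fun h x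
  rw [toBCF_apply, toBCF_apply] at this
  linarith

noncomputable instance instMetricSpaceKSp [Nonempty X] : MetricSpace (KSp X) :=
  MetricSpace.induced (toBCF (Classical.arbitrary X)) (toBCF_injective _) inferInstance

theorem KSp.dist_le_iff [Nonempty X] (f g : KSp X) (C : ℝ) (hC : 0 ≤ C) :
    dist f g ≤ C ↔ ∀ x, |f.fn x - g.fn x| ≤ C := by
  change dist (toBCF (Classical.arbitrary X) f) (toBCF (Classical.arbitrary X) g) ≤ C ↔ _
  rw [BoundedContinuousFunction.dist_le hC]
  apply forall_congr'
  intro x
  rw [toBCF_apply, toBCF_apply, Real.dist_eq]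
  rw [show f.fn x - dist (Classical.arbitrary X) x - (g.fn x - dist (Classical.arbitrary X) x)
    = f.fn x - g.fn x by ring]

theorem KSp.abs_sub_le_dist [Nonempty X] (f g : KSp X) (x : X) : |f.fn x - g.fn x| ≤ dist f g :=
  (KSp.dist_le_iff f g (dist f g) dist_nonneg).1 le_rfl x

/-- The Kuratowski embedding. -/
def kur (x : X) : KSp X := ⟨fun y => dist x y, isKat_dist x, finSupp_dist x⟩

theorem kur_fn (x y : X) : (kur x).fn y = dist x y := rfl

theorem dist_kur [Nonempty X] (f : KSp X) (x : X) : dist f (kur x) = f.fn x := by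
  apply le_antisymm
  · rw [KSp.dist_le_iff _ _ _ (f.kat.nonneg x)]
    intro y
    exact f.kat.abs_sub_dist_le y x
  · have := KSp.abs_sub_le_dist f (kur x) x
    rw [kur_fn, dist_self, sub_zero] at this
    exact (le_abs_self _).trans this

theorem isometry_kur [Nonempty X] : Isometry (kur : X → KSp X) := by
  apply Isometry.of_dist_eq
  intro x y
  rw [dist_kur]
  rfl

/-- Transport of Katetov functions along an isometric equivalence. -/
def KSp.map {Y : Type v} [MetricSpace Y] (σ : X ≃ᵢ Y) (f : KSp X) : KSp Y where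
  fn := fun y => f.fn (σ.symm y)
  kat := ⟨fun a b => by
      have := f.kat.1 (σ.symm a) (σ.symm b)
      rwa [σ.symm.dist_eq] at this, fun a b => by
      have := f.kat.2 (σ.symm a) (σ.symm b)
      rwa [σ.symm.dist_eq] at this⟩
  supp := by
      classical
      obtain ⟨S, hS⟩ := f.supp
      refine ⟨S.image σ, fun y => ?_⟩
      obtain ⟨s, hs, h⟩ := hS (σ.symm y)
      refine ⟨σ s, Finset.mem_image_of_mem _ hs, ?_⟩
      have h2 : dist (σ s) y = dist s (σ.symm y) := by
        rw [← σ.symm.dist_eq, σ.symm_apply_apply]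
      rw [h2]
      simpa using h

theorem KSp.map_apply {Y : Type v} [MetricSpace Y] (σ : X ≃ᵢ Y) (f : KSp X) (y : Y) :
    (KSp.map σ f).fn y = f.fn (σ.symm y) := rfl

theorem KSp.dist_map {Y : Type v} [MetricSpace Y] [Nonempty X] [Nonempty Y] (σ : X ≃ᵢ Y)
    (f g : KSp X) : dist (KSp.map σ f) (KSp.map σ g) = dist f g := by
  apply le_antisymm
  · rw [KSp.dist_le_iff _ _ _ dist_nonneg]
    intro y
    exact KSp.abs_sub_le_dist f g _
  · rw [KSp.dist_le_iff _ _ _ dist_nonneg]
    intro x
    have := KSp.abs_sub_le_dist (KSp.map σ f) (KSp.map σ g) (σ x)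
    rwa [KSp.map_apply, KSp.map_apply, σ.symm_apply_apply] at this

/-- The functor on isometric equivalences. -/
noncomputable def KSp.mapEquiv {Y : Type v} [MetricSpace Y] [Nonempty X] [Nonempty Y]
    (σ : X ≃ᵢ Y) : KSp X ≃ᵢ KSp Y where
  toFun := KSp.map σ
  invFun := KSp.map σ.symm
  left_inv f := by
    apply KSp.ext'
    intro x
    rw [KSp.map_apply, KSp.map_apply]
    simp
  right_inv f := by
    apply KSp.ext'
    intro x
    rw [KSp.map_apply, KSp.map_apply]
    simp
  isometry_toFun := Isometry.of_dist_eq (KSp.dist_map σ)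

theorem KSp.map_kur {Y : Type v} [MetricSpace Y] (σ : X ≃ᵢ Y) (x : X) :
    KSp.map σ (kur x) = kur (σ x) := by
  apply KSp.ext'
  intro y
  rw [KSp.map_apply, kur_fn, kur_fn, ← σ.dist_eq, σ.apply_symm_apply]

theorem KSp.mapEquiv_kur {Y : Type v} [MetricSpace Y] [Nonempty X] [Nonempty Y]
    (σ : X ≃ᵢ Y) (x : X) : KSp.mapEquiv σ (kur x) = kur (σ x) :=
  KSp.map_kur σ x

/-- The function generated by a finite family of balls. -/
theorem exists_kat {ι : Type v} (s : Finset ι) (hs : s.Nonempty) (p : ι → X) (h : ι → ℝ)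
    (hh : ∀ i ∈ s, ∀ j ∈ s, dist (p i) (p j) ≤ h i + h j) :
    ∃ k : KSp X, ∀ x, k.fn x = s.inf' hs (fun i => h i + dist (p i) x) := by
  classical
  obtain ⟨F, hF⟩ : ∃ F : X → ℝ, ∀ x, F x = s.inf' hs (fun i => h i + dist (p i) x) :=
    ⟨_, fun x => rfl⟩
  refine ⟨⟨F, ⟨?_, ?_⟩, ?_⟩, hF⟩
  · intro x y
    obtain ⟨i, hi, h1⟩ := s.exists_mem_eq_inf' hs (fun i => h i + dist (p i) y)
    rw [hF y, h1, hF x]
    refine (Finset.inf'_le _ hi).trans ?_
    have := dist_triangle (p i) y x
    rw [dist_comm y x] at this
    linarith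
  · intro x y
    obtain ⟨i, hi, h1⟩ := s.exists_mem_eq_inf' hs (fun i => h i + dist (p i) y)
    obtain ⟨j, hj, h2⟩ := s.exists_mem_eq_inf' hs (fun i => h i + dist (p i) x)
    rw [hF x, hF y, h1, h2]
    have h3 := hh j hj i hi
    have h4 := dist_triangle4 x (p j) (p i) y
    rw [dist_comm x (p j)] at h4
    linarith
  · refine ⟨s.image p, fun x => ?_⟩
    obtain ⟨i, hi, h1⟩ := s.exists_mem_eq_inf' hs (fun i => h i + dist (p i) x)
    refine ⟨p i, Finset.mem_image_of_mem _ hi, ?_⟩
    rw [hF x, h1]
    have : F (p i) ≤ h i := by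
      rw [hF]
      refine (Finset.inf'_le _ hi).trans ?_
      simp
    linarith

/-- Every finitely supported Katetov function is of this form. -/
theorem KSp.eq_inf' [Nonempty X] (f : KSp X) : ∃ (n : ℕ) (p : Fin (n + 1) → X),
    ∀ x, f.fn x = (Finset.univ : Finset (Fin (n + 1))).inf' Finset.univ_nonempty
      (fun i => f.fn (p i) + dist (p i) x) := by
  classical
  obtain ⟨S, hS⟩ := f.supp
  have hne : S.Nonempty := by
    obtain ⟨s, hs, -⟩ := hS (Classical.arbitrary X)
    exact ⟨s, hs⟩
  obtain ⟨n, hn⟩ : ∃ n, S.card = n + 1 := Nat.exists_eq_succ_of_ne_zero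
    (Finset.card_pos.2 hne).ne'
  let e : Fin (n + 1) ≃ S := (S.equivFinOfCardEq hn).symm
  refine ⟨n, fun i => (e i : X), fun x => ?_⟩
  apply le_antisymm
  · apply Finset.le_inf'
    intro i _
    have := f.kat.1 x (e i)
    rw [dist_comm] at this
    exact this
  · obtain ⟨s, hs, h⟩ := hS x
    refine le_trans ?_ h
    refine (Finset.inf'_le _ (Finset.mem_univ (e.symm ⟨s, hs⟩))).trans ?_
    simp

/-- If `X` is separable then so is the space of finitely supported Katetov functions. -/
theorem separableSpace_KSp [Nonempty X] [SeparableSpace X] : SeparableSpace (KSp X) := by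
  classical
  -- parameter spaces
  let P : ℕ → Type u := fun n => {q : Fin (n + 1) → X × ℝ //
    ∀ i j, dist (q i).1 (q j).1 ≤ (q i).2 + (q j).2}
  have hex : ∀ n (q : P n), ∃ k : KSp X, ∀ x, k.fn x =
      (Finset.univ : Finset (Fin (n + 1))).inf' Finset.univ_nonempty
        (fun i => (q.1 i).2 + dist (q.1 i).1 x) := fun n q =>
    exists_kat Finset.univ Finset.univ_nonempty (fun i => (q.1 i).1) (fun i => (q.1 i).2)
      (fun i _ j _ => q.2 i j)
  choose K hK using hex
  have hcont : ∀ n, Continuous (K n) := by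
    intro n
    have : LipschitzWith 2 (K n) := by
      apply LipschitzWith.of_dist_le_mul
      intro q r
      have hC : 0 ≤ (((2 : NNReal) : ℝ) * dist q r) := by positivity
      rw [KSp.dist_le_iff _ _ _ hC]
      intro x
      have key : ∀ q r : P n, (K n q).fn x ≤ (K n r).fn x + 2 * dist q r := by
        intro q r
        obtain ⟨i, hi, h1⟩ := (Finset.univ : Finset (Fin (n + 1))).exists_mem_eq_inf'
          Finset.univ_nonempty (fun i => (r.1 i).2 + dist (r.1 i).1 x)
        rw [hK n r x, h1, hK n q x]
        refine (Finset.inf'_le _ hi).trans ?_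
        have h2 : dist (q.1 i) (r.1 i) ≤ dist q r := dist_le_pi_dist q.1 r.1 i
        have h3 : dist (q.1 i).1 (r.1 i).1 ≤ dist q r := le_trans (le_max_left _ _) h2
        have h4 : dist (q.1 i).2 (r.1 i).2 ≤ dist q r := le_trans (le_max_right _ _) h2
        rw [Real.dist_eq] at h4
        have h5 := (abs_le.1 h4).2
        have h6 := dist_triangle (q.1 i).1 (r.1 i).1 x
        linarith
      rw [abs_le]
      constructor
      · have := key r q
        rw [dist_comm] at this
        simp only [NNReal.coe_ofNat]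
        linarith
      · have := key q r
        simp only [NNReal.coe_ofNat]
        linarith
    exact this.continuous
  have hsep : ∀ n, SeparableSpace (P n) := by
    intro n
    have : SecondCountableTopology X := UniformSpace.secondCountable_of_separable X
    infer_instance
  have hun : (Set.univ : Set (KSp X)) ⊆ ⋃ n, Set.range (K n) := by
    intro f _
    obtain ⟨n, p, hp⟩ := f.eq_inf'
    rw [Set.mem_iUnion]
    refine ⟨n, ⟨⟨fun i => (p i, f.fn (p i)), fun i j => f.kat.2 _ _⟩, ?_⟩⟩
    apply KSp.ext'
    intro x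
    rw [hK, hp]
  have h1 : TopologicalSpace.IsSeparable (⋃ n, Set.range (K n)) := by
    apply TopologicalSpace.IsSeparable.iUnion
    intro n
    have := hsep n
    exact TopologicalSpace.isSeparable_range (hcont n)
  exact TopologicalSpace.isSeparable_univ_iff.1 (h1.mono hun)

end Basic

end Pool.Agent.LibUrysohn
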