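import Mathlib
import Pool.Agent.LibUrysohn.Defs

/-!
The Urysohn extension property, extension of isometries by density, and uniqueness.
-/

namespace Pool.Agent.LibUrysohn

open Set Metric Topology TopologicalSpace

universe u v w

theorem IsUrysohn.nonempty {U : Type u} [MetricSpace U] (hU : IsUrysohn U) : Nonempty U := by
  obtain ⟨z, -⟩ := hU.extension ∅ (fun _ => 0) (by simp)
  exact ⟨z⟩

/-- Extension property for finite families. -/
theorem IsUrysohn.family {U : Type u} [MetricSpace U] (hU : IsUrysohn U) {ι : Type v}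
    (s : Finset ι) (p : ι → U) (h : ι → ℝ)
    (hh : ∀ i ∈ s, ∀ j ∈ s, |h i - h j| ≤ dist (p i) (p j) ∧ dist (p i) (p j) ≤ h i + h j) :
    ∃ z : U, ∀ i ∈ s, dist z (p i) = h i := by
  classical
  let g : U → ℝ := fun x => if hx : ∃ i ∈ s, p i = x then h hx.choose else 0
  have hg : ∀ i ∈ s, g (p i) = h i := by
    intro i hi
    have hx : ∃ j ∈ s, p j = p i := ⟨i, hi, rfl⟩
    have h1 : g (p i) = h hx.choose := by
      simp only [g]
      rw [dif_pos hx]
    have h2 := hx.choose_spec
    have h3 := (hh _ h2.1 i hi).1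
    rw [h2.2, dist_self] at h3
    have h4 := abs_nonpos_iff.1 h3
    rw [h1]
    linarith
  obtain ⟨z, hz⟩ := hU.extension (s.image p) g (by
    intro x hx y hy
    rw [Finset.mem_image] at hx hy
    obtain ⟨i, hi, rfl⟩ := hx
    obtain ⟨j, hj, rfl⟩ := hy
    rw [hg i hi, hg j hj]
    exact hh i hi j hj)
  refine ⟨z, fun i hi => ?_⟩
  rw [hz _ (Finset.mem_image_of_mem _ hi), hg i hi]

/-- Extension of isometries by density. -/
theorem exists_isometry_extend {S : Type w} {V : Type u} {W : Type v} [MetricSpace V]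
    [MetricSpace W] [CompleteSpace W] (p : S → V) (q : S → W) (hp : DenseRange p)
    (h : ∀ s t, dist (q s) (q t) = dist (p s) (p t)) :
    ∃ φ : V → W, Isometry φ ∧ ∀ s, φ (p s) = q s := by
  classical
  rcases isEmpty_or_nonempty S with hS | hS
  · have hV : IsEmpty V := by
      by_contra hne
      rw [not_isEmpty_iff] at hne
      obtain ⟨v⟩ := hne
      obtain ⟨s⟩ := hp.nonempty_iff.2 ⟨v⟩
      exact hS.elim s
    exact ⟨fun v => (hV.false v).elim, fun v => (hV.false v).elim, fun s => (hS.false s).elim⟩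
  have hch : ∀ (v : V) (n : ℕ), ∃ s, dist v (p s) < (1 / 2 : ℝ) ^ n := by
    intro v n
    exact hp.exists_dist_lt v (by positivity)
  choose a ha using hch
  have hcau : ∀ v, CauchySeq (fun n => q (a v n)) := by
    intro v
    apply cauchySeq_of_le_geometric_two (C := 4)
    intro n
    rw [h]
    have h1 := ha v n
    have h2 := ha v (n + 1)
    have h3 := dist_triangle_left (p (a v n)) (p (a v (n + 1))) v
    have h4 : (1 / 2 : ℝ) ^ (n + 1) ≤ (1 / 2 : ℝ) ^ n := by
      rw [pow_succ]
      have : (0 : ℝ) ≤ (1 / 2) ^ n := by positivity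
      linarith
    have h5 : (4 : ℝ) / 2 / 2 ^ n = 2 * (1 / 2) ^ n := by
      rw [one_div, inv_pow]
      ring
    rw [h5]
    linarith
  have hlim : ∀ v, ∃ w, Filter.Tendsto (fun n => q (a v n)) Filter.atTop (𝓝 w) := fun v =>
    cauchySeq_tendsto_of_complete (hcau v)
  choose φ hφ using hlim
  have hpa : ∀ v, Filter.Tendsto (fun n => p (a v n)) Filter.atTop (𝓝 v) := by
    intro v
    rw [tendsto_iff_dist_tendsto_zero]
    refine squeeze_zero (fun _ => dist_nonneg) (g := fun n => (1 / 2 : ℝ) ^ n) ?_ ?_
    · intro n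
      rw [dist_comm]
      exact (ha v n).le
    · exact tendsto_pow_atTop_nhds_zero_of_lt_one (by norm_num) (by norm_num)
  refine ⟨φ, ?_, ?_⟩
  · apply Isometry.of_dist_eq
    intro v w
    have h1 : Filter.Tendsto (fun n => dist (q (a v n)) (q (a w n))) Filter.atTop
        (𝓝 (dist (φ v) (φ w))) := (hφ v).dist (hφ w)
    have h2 : Filter.Tendsto (fun n => dist (p (a v n)) (p (a w n))) Filter.atTop
        (𝓝 (dist v w)) := (hpa v).dist (hpa w)
    have h3 : (fun n => dist (q (a v n)) (q (a w n))) = fun n => dist (p (a v n)) (p (a w n)) := by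
      funext n
      exact h _ _
    rw [h3] at h1
    exact tendsto_nhds_unique h1 h2
  · intro s
    have h1 : Filter.Tendsto (fun n => dist (q (a (p s) n)) (q s)) Filter.atTop
        (𝓝 (dist (φ (p s)) (q s))) := (hφ (p s)).dist tendsto_const_nhds
    have h2 : Filter.Tendsto (fun n => dist (p (a (p s) n)) (p s)) Filter.atTop
        (𝓝 (dist (p s) (p s))) := (hpa (p s)).dist tendsto_const_nhds
    have h3 : (fun n => dist (q (a (p s) n)) (q s)) = fun n => dist (p (a (p s) n)) (p s) := by
      funext n
      exact h _ _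
    rw [h3] at h1
    have h4 := tendsto_nhds_unique h1 h2
    rw [dist_self] at h4
    exact dist_eq_zero.1 h4

/-- Extension of isometries by density, as an isometric equivalence. -/
theorem exists_isometryEquiv_extend {S : Type w} {V : Type u} {W : Type v} [MetricSpace V]
    [MetricSpace W] [CompleteSpace V] [CompleteSpace W] (p : S → V) (q : S → W)
    (hp : DenseRange p) (hq : DenseRange q)
    (h : ∀ s t, dist (q s) (q t) = dist (p s) (p t)) :
    ∃ φ : V ≃ᵢ W, ∀ s, φ (p s) = q s := by
  obtain ⟨φ, hφ, hφ2⟩ := exists_isometry_extend p q hp h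
  obtain ⟨ψ, hψ, hψ2⟩ := exists_isometry_extend q p hq (fun s t => (h s t).symm)
  have h1 : ∀ v, ψ (φ v) = v := by
    have : (fun v => ψ (φ v)) = id := by
      apply hp.equalizer (hψ.continuous.comp hφ.continuous) continuous_id
      funext s
      simp only [Function.comp, id]
      rw [hφ2, hψ2]
    intro v
    exact congrFun this v
  have h2 : ∀ w, φ (ψ w) = w := by
    have : (fun v => φ (ψ v)) = id := by
      apply hq.equalizer (hφ.continuous.comp hψ.continuous) continuous_id
      funext s
      simp only [Function.comp, id]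
      rw [hψ2, hφ2]
    intro v
    exact congrFun this v
  exact ⟨⟨⟨φ, ψ, h1, h2⟩, hφ⟩, hφ2⟩

/-- Finite partial isometries. -/
def FPI (U : Type u) (V : Type v) [MetricSpace U] [MetricSpace V] : Type (max u v) :=
  {F : Finset (U × V) // ∀ s ∈ F, ∀ t ∈ F, dist s.1 t.1 = dist s.2 t.2}

instance (U : Type u) (V : Type v) [MetricSpace U] [MetricSpace V] : Preorder (FPI U V) :=
  Preorder.lift (fun F : FPI U V => F.1)

/-- Uniqueness of the Urysohn space, by back and forth. -/
theorem IsUrysohn.exists_isometryEquiv {U : Type u} {V : Type v} [MetricSpace U] [MetricSpace V]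
    (hU : IsUrysohn U) (hV : IsUrysohn V) : Nonempty (U ≃ᵢ V) := by
  classical
  have := hU.complete
  have := hV.complete
  have := hU.separable
  have := hV.separable
  have := hU.nonempty
  have := hV.nonempty
  let a : ℕ → U := denseSeq U
  let b : ℕ → V := denseSeq V
  let CL : ℕ → Order.Cofinal (FPI U V) := fun n =>
    { carrier := {F | ∃ y, (a n, y) ∈ F.1}
      isCofinal := by
        intro F
        obtain ⟨y, hy⟩ := hV.family F.1 (fun s => s.2) (fun s => dist (a n) s.1) (by
          intro s hs t ht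
          rw [← F.2 s hs t ht]
          refine ⟨?_, ?_⟩
          · rw [dist_comm (a n) s.1, dist_comm (a n) t.1]
            exact abs_dist_sub_le _ _ _
          · exact dist_triangle_left _ _ _)
        refine ⟨⟨insert (a n, y) F.1, ?_⟩, ⟨y, Finset.mem_insert_self _ _⟩, ?_⟩
        · intro s hs t ht
          rw [Finset.mem_insert] at hs ht
          rcases hs with rfl | hs <;> rcases ht with rfl | ht
          · simp
          · exact (hy t ht).symm
          · rw [dist_comm s.1, dist_comm s.2]
            exact (hy s hs).symm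
          · exact F.2 s hs t ht
        · exact Finset.subset_insert _ _ }
  let CR : ℕ → Order.Cofinal (FPI U V) := fun n =>
    { carrier := {F | ∃ x, (x, b n) ∈ F.1}
      isCofinal := by
        intro F
        obtain ⟨x, hx⟩ := hU.family F.1 (fun s => s.1) (fun s => dist (b n) s.2) (by
          intro s hs t ht
          rw [F.2 s hs t ht]
          refine ⟨?_, ?_⟩
          · rw [dist_comm (b n) s.2, dist_comm (b n) t.2]
            exact abs_dist_sub_le _ _ _
          · exact dist_triangle_left _ _ _)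
        refine ⟨⟨insert (x, b n) F.1, ?_⟩, ⟨x, Finset.mem_insert_self _ _⟩, ?_⟩
        · intro s hs t ht
          rw [Finset.mem_insert] at hs ht
          rcases hs with rfl | hs <;> rcases ht with rfl | ht
          · simp
          · exact (hx t ht)
          · rw [dist_comm s.1, dist_comm s.2]
            exact (hx s hs)
          · exact F.2 s hs t ht
        · exact Finset.subset_insert _ _ }
  let C : ℕ ⊕ ℕ → Order.Cofinal (FPI U V) := Sum.elim CL CR
  let I : Order.Ideal (FPI U V) := Order.idealOfCofinals ⟨∅, by simp⟩ C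
  have hI : ∀ i, ∃ F, F ∈ C i ∧ F ∈ I := fun i =>
    Order.cofinal_meets_idealOfCofinals ⟨∅, by simp⟩ C i
  let S : Type (max u v) := {s : U × V // ∃ F ∈ I, s ∈ F.1}
  obtain ⟨φ, -⟩ := exists_isometryEquiv_extend (S := S) (fun s => s.1.1) (fun s => s.1.2)
    (by
      have hd : DenseRange a := denseRange_denseSeq U
      apply hd.mono
      rintro _ ⟨n, rfl⟩
      obtain ⟨F, ⟨y, hy⟩, hF⟩ := hI (Sum.inl n)
      exact ⟨⟨(a n, y), F, hF, hy⟩, rfl⟩)
    (by
      have hd : DenseRange b := denseRange_denseSeq V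
      apply hd.mono
      rintro _ ⟨n, rfl⟩
      obtain ⟨F, ⟨x, hx⟩, hF⟩ := hI (Sum.inr n)
      exact ⟨⟨(x, b n), F, hF, hx⟩, rfl⟩)
    (by
      rintro ⟨s, F, hF, hs⟩ ⟨t, G, hG, ht⟩
      obtain ⟨H, hH, h1, h2⟩ := I.directed F hF G hG
      exact (H.2 s (h1 hs) t (h2 ht)).symm)
  exact ⟨φ⟩

end Pool.Agent.LibUrysohn
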