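import Mathlib
import Pool.Agent.LibUrysohn.Katetov
import Pool.Agent.LibUrysohn.Unique

/-!
The Katetov tower over a separable metric space, and the resulting equivariant embedding into the
Urysohn space.
-/

namespace Pool.Agent.LibUrysohn

open Set Metric Topology TopologicalSpace

universe u v w

/-- Bundled nonempty metric spaces. -/
structure MSp : Type (u + 1) where
  /-- the underlying type -/
  carrier : Type u
  [inst : MetricSpace carrier]
  [ne : Nonempty carrier]

attribute [instance] MSp.inst MSp.ne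

instance {X : Type u} [MetricSpace X] [Nonempty X] : Nonempty (KSp X) :=
  ⟨kur (Classical.arbitrary X)⟩

/-- The Katetov tower. -/
noncomputable def tower (Z : MSp.{u}) : ℕ → MSp.{u}
  | 0 => Z
  | n + 1 => ⟨KSp (tower Z n).carrier⟩

/-- Direct limits of metric spaces, completed. -/
theorem exists_limit (X : ℕ → Type u) [∀ n, MetricSpace (X n)] [∀ n, SeparableSpace (X n)]
    (f : ∀ n, X n → X (n + 1)) (I : ∀ n, Isometry (f n)) :
    ∃ (V : Type u) (_ : MetricSpace V) (j : ∀ n, X n → V), CompleteSpace V ∧ SeparableSpace V ∧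
      (∀ n, Isometry (j n)) ∧ (∀ n x, j (n + 1) (f n x) = j n x) ∧
      DenseRange (fun s : Σ n, X n => j s.1 s.2) := by
  have hs : SeparableSpace (Metric.InductiveLimit I) :=
    Metric.separableSpaceInductiveLimit_of_separableSpace I
  refine ⟨UniformSpace.Completion (Metric.InductiveLimit I), inferInstance,
    fun n x => ((Metric.toInductiveLimit I n x : Metric.InductiveLimit I) :
      UniformSpace.Completion (Metric.InductiveLimit I)), inferInstance, ?_, ?_, ?_, ?_⟩
  · exact UniformSpace.Completion.separableSpace_completion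
  · intro n
    exact UniformSpace.Completion.coe_isometry.comp (Metric.toInductiveLimit_isometry I n)
  · intro n x
    have := congrFun (Metric.toInductiveLimit_commute I n) x
    change ((Metric.toInductiveLimit I (n + 1) (f n x) : Metric.InductiveLimit I) :
      UniformSpace.Completion (Metric.InductiveLimit I)) = _
    rw [show Metric.toInductiveLimit I (n + 1) (f n x) = Metric.toInductiveLimit I n x from this]
  · have h1 : DenseRange (fun s : Σ n, X n => Metric.toInductiveLimit I s.1 s.2) := by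
      have := Metric.dense_iUnion_range_toInductiveLimit I
      refine Dense.mono ?_ this
      intro y hy
      rw [Set.mem_iUnion] at hy
      obtain ⟨n, x, rfl⟩ := hy
      exact ⟨⟨n, x⟩, rfl⟩
    exact UniformSpace.Completion.denseRange_coe.comp h1
      (UniformSpace.Completion.continuous_coe _)

/-- Approximate extension property for families. -/
def AEP (V : Type u) [MetricSpace V] : Prop :=
  ∀ (ι : Type u) (s : Finset ι) (p : ι → V) (h : ι → ℝ),
    (∀ i ∈ s, ∀ j ∈ s, h i ≤ h j + dist (p i) (p j) ∧ dist (p i) (p j) ≤ h i + h j) →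
    ∀ ε : ℝ, 0 < ε → ∃ z : V, ∀ i ∈ s, |dist z (p i) - h i| ≤ ε

theorem AEP.step {V : Type u} [MetricSpace V] (H : AEP V) {ι : Type u} (s : Finset ι)
    (hs : s.Nonempty) (p : ι → V) (h : ι → ℝ)
    (hh : ∀ i ∈ s, ∀ j ∈ s, h i ≤ h j + dist (p i) (p j) ∧ dist (p i) (p j) ≤ h i + h j)
    (w : V) (δ : ℝ) (hw : ∀ i ∈ s, |dist w (p i) - h i| ≤ δ) (ε : ℝ) (hε : 0 < ε) :
    ∃ z : V, (∀ i ∈ s, |dist z (p i) - h i| ≤ ε) ∧ dist z w ≤ δ + ε := by
  classical
  obtain ⟨δ', hδ'⟩ : ∃ δ', δ' = s.sup' hs (fun i => |dist w (p i) - h i|) := ⟨_, rfl⟩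
  have h1 : δ' ≤ δ := by
    rw [hδ']
    exact Finset.sup'_le _ _ hw
  have h2 : ∀ i ∈ s, |dist w (p i) - h i| ≤ δ' := by
    intro i hi
    rw [hδ']
    exact Finset.le_sup' (fun i => |dist w (p i) - h i|) hi
  have h3 : ∀ i ∈ s, δ' ≤ h i + dist w (p i) := by
    intro i hi
    rw [hδ']
    apply Finset.sup'_le
    intro j hj
    rw [abs_le]
    have h4 := (hh i hi j hj)
    have h5 := (hh j hj i hi)
    have h6 := dist_triangle w (p i) (p j)
    have h7 := dist_triangle (p i) w (p j)
    rw [dist_comm (p i) w] at h7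
    constructor
    · have h8 := dist_triangle w (p j) (p i)
      have h9 : 0 ≤ dist w (p j) := dist_nonneg
      have h10 := dist_comm (p i) (p j)
      linarith
    · linarith
  obtain ⟨z, hz⟩ := H (Option ι) (Finset.insertNone s) (fun o => o.elim w p)
    (fun o => o.elim δ' h) (by
      intro i hi j hj
      rcases i with _ | i <;> rcases j with _ | j
      · simp only [Option.elim]
        rw [dist_self]
        obtain ⟨i, hi⟩ := hs
        have := (abs_nonneg _).trans (h2 i hi)
        constructor <;> linarith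
      · rw [Finset.some_mem_insertNone] at hj
        simp only [Option.elim]
        have h4 := h2 j hj
        have h5 := h3 j hj
        rw [abs_le] at h4
        constructor <;> linarith
      · rw [Finset.some_mem_insertNone] at hi
        simp only [Option.elim]
        have h4 := h2 i hi
        have h5 := h3 i hi
        rw [abs_le] at h4
        rw [dist_comm (p i) w]
        constructor <;> linarith
      · rw [Finset.some_mem_insertNone] at hi hj
        exact hh i hi j hj) ε hε
  refine ⟨z, fun i hi => ?_, ?_⟩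
  · exact hz (some i) (Finset.some_mem_insertNone.2 hi)
  · have := hz none (Finset.none_mem_insertNone)
    simp only [Option.elim] at this
    rw [abs_le] at this
    linarith

theorem AEP.exact {V : Type u} [MetricSpace V] [CompleteSpace V] [Nonempty V] (H : AEP V)
    {ι : Type u} (s : Finset ι) (p : ι → V) (h : ι → ℝ)
    (hh : ∀ i ∈ s, ∀ j ∈ s, h i ≤ h j + dist (p i) (p j) ∧ dist (p i) (p j) ≤ h i + h j) :
    ∃ z : V, ∀ i ∈ s, dist z (p i) = h i := by
  classical
  rcases s.eq_empty_or_nonempty with rfl | hs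
  · exact ⟨Classical.arbitrary V, by simp⟩
  let T : ℕ → Type u := fun n => {w : V // ∀ i ∈ s, |dist w (p i) - h i| ≤ (1 / 2 : ℝ) ^ n}
  have hstep : ∀ n (w : T n), ∃ z : T (n + 1), dist z.1 w.1 ≤ (1 / 2 : ℝ) ^ n + (1 / 2) ^ (n + 1) := by
    intro n w
    obtain ⟨z, hz, hz2⟩ := H.step s hs p h hh w.1 _ w.2 ((1 / 2 : ℝ) ^ (n + 1)) (by positivity)
    exact ⟨⟨z, hz⟩, hz2⟩
  choose F hF using hstep
  obtain ⟨w0, hw0⟩ := H ι s p h hh 1 one_pos
  let sq : ∀ n, T n := fun n => Nat.rec (motive := T) ⟨w0, by simpa using hw0⟩ (fun n w => F n w) n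
  have hsq : ∀ n, sq (n + 1) = F n (sq n) := fun n => rfl
  have hcau : CauchySeq (fun n => (sq n).1) := by
    apply cauchySeq_of_le_geometric_two (C := 4)
    intro n
    rw [hsq, dist_comm]
    refine (hF n (sq n)).trans ?_
    have h5 : (4 : ℝ) / 2 / 2 ^ n = 2 * (1 / 2) ^ n := by
      rw [one_div, inv_pow]
      ring
    rw [h5, pow_succ]
    have : (0 : ℝ) ≤ (1 / 2) ^ n := by positivity
    linarith
  obtain ⟨z, hz⟩ := cauchySeq_tendsto_of_complete hcau
  refine ⟨z, fun i hi => ?_⟩
  have h1 : Filter.Tendsto (fun n => dist (sq n).1 (p i)) Filter.atTop (𝓝 (dist z (p i))) :=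
    hz.dist tendsto_const_nhds
  have h2 : Filter.Tendsto (fun n => dist (sq n).1 (p i)) Filter.atTop (𝓝 (h i)) := by
    rw [tendsto_iff_dist_tendsto_zero]
    refine squeeze_zero (fun _ => dist_nonneg) (g := fun n => (1 / 2 : ℝ) ^ n) ?_ ?_
    · intro n
      rw [Real.dist_eq]
      exact (sq n).2 i hi
    · exact tendsto_pow_atTop_nhds_zero_of_lt_one (by norm_num) (by norm_num)
  exact tendsto_nhds_unique h1 h2

/-- The tower over `Z` with all structure. -/
theorem exists_tower_limit (Z : Type u) [MetricSpace Z] [SeparableSpace Z] [Nonempty Z] :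
    ∃ (V : Type u) (_ : MetricSpace V) (i : Z → V), IsUrysohn V ∧ Isometry i ∧
      ∀ σ : Z ≃ᵢ Z, ∃ τ : V ≃ᵢ V, ∀ z, τ (i z) = i (σ z) := by
  classical
  let ZZ : MSp.{u} := ⟨Z⟩
  let X : ℕ → Type u := fun n => (tower ZZ n).carrier
  have hsep : ∀ n, SeparableSpace (X n) := by
    intro n
    induction n with
    | zero => exact (inferInstance : SeparableSpace Z)
    | succ n ih => exact separableSpace_KSp (X := X n)
  let f : ∀ n, X n → X (n + 1) := fun n => (kur : X n → KSp (X n))
  have hf : ∀ n, Isometry (f n) := fun n => isometry_kur (X := X n)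
  obtain ⟨V, iV, j, hc, hs, hj, hjf, hd⟩ := exists_limit X f hf
  have hlift : ∀ n m, n ≤ m → ∀ x : X n, ∃ y : X m, j m y = j n x := by
    intro n m hnm
    induction m, hnm using Nat.le_induction with
    | base => exact fun x => ⟨x, rfl⟩
    | succ m hm ih =>
      intro x
      obtain ⟨y, hy⟩ := ih x
      exact ⟨f m y, by rw [hjf, hy]⟩
  have hne : Nonempty V := ⟨j 0 (Classical.arbitrary Z)⟩
  -- approximate extension property
  have haep : AEP V := by
    intro ι s p h hh ε hε
    rcases s.eq_empty_or_nonempty with rfl | hsn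
    · exact ⟨Classical.arbitrary V, by simp⟩
    have h1 : ∀ i, ∃ t : (Σ n, X n), dist (p i) (j t.1 t.2) < ε / 2 := fun i =>
      hd.exists_dist_lt (p i) (by positivity)
    choose t ht using h1
    let N : ℕ := s.sup (fun i => (t i).1)
    have h2 : ∀ i, ∃ y : X N, i ∈ s → j N y = j (t i).1 (t i).2 := by
      intro i
      by_cases hi : i ∈ s
      · obtain ⟨y, hy⟩ := hlift (t i).1 N (Finset.le_sup (f := fun i => (t i).1) hi) (t i).2
        exact ⟨y, fun _ => hy⟩
      · exact ⟨Classical.arbitrary _, fun h => absurd h hi⟩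
    choose y hy using h2
    have hy2 : ∀ i ∈ s, dist (p i) (j N (y i)) < ε / 2 := by
      intro i hi
      rw [hy i hi]
      exact ht i
    have hyd : ∀ i ∈ s, ∀ l ∈ s, dist (y i) (y l) ≤ dist (p i) (p l) + ε := by
      intro i hi l hl
      rw [← (hj N).dist_eq]
      have h3 := dist_triangle4 (j N (y i)) (p i) (p l) (j N (y l))
      have h4 := hy2 i hi
      have h5 := hy2 l hl
      rw [dist_comm (j N (y i)) (p i)] at h3
      linarith
    have hyd2 : ∀ i ∈ s, ∀ l ∈ s, dist (p i) (p l) ≤ dist (y i) (y l) + ε := by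
      intro i hi l hl
      rw [← (hj N).dist_eq]
      have h3 := dist_triangle4 (p i) (j N (y i)) (j N (y l)) (p l)
      have h4 := hy2 i hi
      have h5 := hy2 l hl
      rw [dist_comm (j N (y l)) (p l)] at h3
      linarith
    obtain ⟨k, hk⟩ := exists_kat (X := X N) s hsn y (fun i => h i + ε / 2) (by
      intro i hi l hl
      have h3 := hyd i hi l hl
      have h4 := (hh i hi l hl).2
      linarith)
    refine ⟨j (N + 1) k, fun i hi => ?_⟩
    have h3 : dist (j (N + 1) k) (j N (y i)) = k.fn (y i) := by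
      rw [← hjf N (y i)]
      exact ((hj (N + 1)).dist_eq _ _).trans (dist_kur k (y i))
    have h4 : k.fn (y i) ≤ h i + ε / 2 := by
      rw [hk]
      refine (Finset.inf'_le _ hi).trans ?_
      simp
    have h5 : h i - ε / 2 ≤ k.fn (y i) := by
      rw [hk]
      apply Finset.le_inf'
      intro l hl
      have h6 := (hh i hi l hl).1
      have h7 := hyd2 i hi l hl
      rw [dist_comm (y i)] at h7
      linarith
    have h6 := dist_triangle (j (N + 1) k) (j N (y i)) (p i)
    have h7 := dist_triangle (j (N + 1) k) (p i) (j N (y i))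
    have h8 := hy2 i hi
    rw [dist_comm (j N (y i)) (p i)] at h6
    rw [abs_le]
    constructor <;> linarith
  have hUry : IsUrysohn V := by
    refine ⟨hc, hs, ?_⟩
    intro S h hh
    exact haep.exact S id h (fun x hx y hy => by
      have h1 := hh x hx y hy
      have h2 := (abs_le.1 h1.1).2
      simp only [id]
      exact ⟨by linarith, h1.2⟩)
  refine ⟨V, iV, j 0, hUry, hj 0, ?_⟩
  intro σ
  -- the induced maps on the tower
  let sg : ∀ n, X n ≃ᵢ X n := fun n => Nat.rec (motive := fun n => X n ≃ᵢ X n) σ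
    (fun n τ => (KSp.mapEquiv (X := X n) (Y := X n) τ : KSp (X n) ≃ᵢ KSp (X n))) n
  have hsg : ∀ n x, sg (n + 1) (f n x) = f n (sg n x) := by
    intro n x
    exact KSp.mapEquiv_kur (X := X n) (Y := X n) (sg n) x
  have hsglift : ∀ n m, n ≤ m → ∀ x : X n, ∃ y : X m, j m y = j n x ∧
      j m (sg m y) = j n (sg n x) := by
    intro n m hnm
    induction m, hnm using Nat.le_induction with
    | base => exact fun x => ⟨x, rfl, rfl⟩
    | succ m hm ih =>
      intro x
      obtain ⟨y, hy, hy2⟩ := ih x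
      refine ⟨f m y, by rw [hjf, hy], ?_⟩
      rw [hsg, hjf, hy2]
  obtain ⟨τ, hτ⟩ := exists_isometryEquiv_extend (S := Σ n, X n) (V := V) (W := V)
    (fun s => j s.1 s.2) (fun s => j s.1 (sg s.1 s.2)) hd (by
      refine hd.mono ?_
      rintro _ ⟨⟨n, x⟩, rfl⟩
      refine ⟨⟨n, (sg n).symm x⟩, ?_⟩
      simp) (by
      rintro ⟨n, x⟩ ⟨m, y⟩
      obtain ⟨x', hx, hx2⟩ := hsglift n (max n m) (le_max_left _ _) x
      obtain ⟨y', hy, hy2⟩ := hsglift m (max n m) (le_max_right _ _) y
      simp only
      rw [← hx, ← hx2, ← hy, ← hy2, (hj _).dist_eq, (hj _).dist_eq, (sg _).dist_eq])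
  exact ⟨τ, fun z => hτ ⟨0, z⟩⟩

/-- The Urysohn space exists. -/
theorem exists_isUrysohn : ∃ (V : Type) (_ : MetricSpace V), IsUrysohn V := by
  obtain ⟨V, iV, -, h, -⟩ := exists_tower_limit PUnit.{1}
  exact ⟨V, iV, h⟩

/-- Uspenskij: every separable metric space embeds into any Urysohn space in such a way that all
its isometries extend. -/
theorem IsUrysohn.exists_equivariant_embedding {U : Type v} [MetricSpace U] (hU : IsUrysohn U)
    (Z : Type u) [MetricSpace Z] [SeparableSpace Z] [Nonempty Z] :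
    ∃ i : Z → U, Isometry i ∧ ∀ σ : Z ≃ᵢ Z, ∃ τ : U ≃ᵢ U, ∀ z, τ (i z) = i (σ z) := by
  obtain ⟨V, iV, i, hV, hi, h⟩ := exists_tower_limit Z
  obtain ⟨φ⟩ := hV.exists_isometryEquiv hU
  refine ⟨φ ∘ i, φ.isometry.comp hi, fun σ => ?_⟩
  obtain ⟨τ, hτ⟩ := h σ
  refine ⟨(φ.symm.trans τ).trans φ, fun z => ?_⟩
  simp [hτ]

end Pool.Agent.LibUrysohn
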