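import Mathlib
import Pool.Agent.LibUrysohn.Defs
import Pool.Agent.LibUrysohn.Tower

/-!
Basic facts on correspondences and the Gromov-Hausdorff distance.
-/

namespace Pool.Agent.LibUrysohn

open Set Metric Topology TopologicalSpace
open scoped ENNReal

universe u v w

theorem NatMetric.nonneg (f : NatMetric) (m n : ℕ) : 0 ≤ f.1 m n := by
  have h1 := f.2.2.2 m n m
  rw [(f.2.1 m m).2 rfl, f.2.2.1 n m] at h1
  linarith

theorem Pt.dist_def (f : NatMetric) (m n : Pt f) : dist m n = f.1 m n := rfl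

/-- The canonical map `ℕ → M_f`. -/
noncomputable def toCpl (f : NatMetric) (n : ℕ) : Cpl f := UniformSpace.Completion.coe' (α := Pt f) n

theorem dist_toCpl (f : NatMetric) (m n : ℕ) : dist (toCpl f m) (toCpl f n) = f.1 m n :=
  UniformSpace.Completion.dist_eq (α := Pt f) m n

theorem denseRange_toCpl (f : NatMetric) : DenseRange (toCpl f) :=
  UniformSpace.Completion.denseRange_coe (α := Pt f)

theorem exists_corr {f g : NatMetric} {ε : ℝ} (h : rhoGH f g < ENNReal.ofReal ε) :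
    ∃ R : ℕ → ℕ → Prop, (∀ m, ∃ n, R m n) ∧ (∀ n, ∃ m, R m n) ∧
      ∀ m n m' n', R m n → R m' n' → |f.1 m m' - g.1 n n'| ≤ 2 * ε := by
  have hε : 0 < ε := by
    by_contra hne
    rw [ENNReal.ofReal_of_nonpos (not_lt.1 hne)] at h
    exact absurd h (by simp)
  unfold rhoGH at h
  simp only [iInf_lt_iff] at h
  obtain ⟨Z, iZ, i, j, hi, hj, h⟩ := h
  refine ⟨fun m n => dist (i (toCpl f m)) (j (toCpl g n)) < ε, ?_, ?_, ?_⟩
  · intro m
    obtain ⟨_, ⟨y, rfl⟩, hy⟩ := exists_edist_lt_of_hausdorffEDist_lt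
      (mem_range_self (f := i) (toCpl f m)) h
    have ho : IsOpen {y : Cpl g | dist (i (toCpl f m)) (j y) < ε} :=
      isOpen_lt (continuous_const.dist hj.continuous) continuous_const
    have hy2 : dist (i (toCpl f m)) (j y) < ε := by
      rwa [edist_lt_ofReal] at hy
    obtain ⟨n, hn⟩ := (denseRange_toCpl g).exists_mem_open ho ⟨y, hy2⟩
    exact ⟨n, hn⟩
  · intro n
    rw [hausdorffEDist_comm] at h
    obtain ⟨_, ⟨y, rfl⟩, hy⟩ := exists_edist_lt_of_hausdorffEDist_lt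
      (mem_range_self (f := j) (toCpl g n)) h
    have ho : IsOpen {y : Cpl f | dist (i y) (j (toCpl g n)) < ε} :=
      isOpen_lt (hi.continuous.dist continuous_const) continuous_const
    have hy2 : dist (i y) (j (toCpl g n)) < ε := by
      rwa [edist_comm, edist_lt_ofReal] at hy
    obtain ⟨m, hm⟩ := (denseRange_toCpl f).exists_mem_open ho ⟨y, hy2⟩
    exact ⟨m, hm⟩
  · intro m n m' n' h1 h2
    rw [← dist_toCpl f, ← dist_toCpl g, ← hi.dist_eq, ← hj.dist_eq]
    have h3 := dist_triangle4 (i (toCpl f m)) (j (toCpl g n)) (j (toCpl g n')) (i (toCpl f m'))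
    have h4 := dist_triangle4 (j (toCpl g n)) (i (toCpl f m)) (i (toCpl f m')) (j (toCpl g n'))
    rw [dist_comm (j (toCpl g n')) (i (toCpl f m'))] at h3
    rw [dist_comm (j (toCpl g n)) (i (toCpl f m))] at h4
    rw [abs_le]
    constructor <;> linarith

theorem rhoGH_le_of_corr {f g : NatMetric} {ε : ℝ} (hε : 0 < ε) (R : ℕ → ℕ → Prop)
    (h1 : ∀ m, ∃ n, R m n) (h2 : ∀ n, ∃ m, R m n)
    (h3 : ∀ m n m' n', R m n → R m' n' → |f.1 m m' - g.1 n n'| ≤ 2 * ε) :
    rhoGH f g ≤ ENNReal.ofReal ε := by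
  let P : Type := {p : ℕ × ℕ // R p.1 p.2}
  have hP : Nonempty P := by
    obtain ⟨n, hn⟩ := h1 0
    exact ⟨⟨(0, n), hn⟩⟩
  let Φ : P → Cpl f := fun p => toCpl f p.1.1
  let Ψ : P → Cpl g := fun p => toCpl g p.1.2
  have H : ∀ p q : P, |dist (Φ p) (Φ q) - dist (Ψ p) (Ψ q)| ≤ 2 * ε := by
    intro p q
    simp only [Φ, Ψ]
    rw [dist_toCpl, dist_toCpl]
    exact h3 _ _ _ _ p.2 q.2
  let mZ : MetricSpace (Cpl f ⊕ Cpl g) := Metric.glueMetricApprox Φ Ψ ε hε H
  have hi : Isometry (Sum.inl : Cpl f → Cpl f ⊕ Cpl g) := Isometry.of_dist_eq fun x y => rfl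
  have hj : Isometry (Sum.inr : Cpl g → Cpl f ⊕ Cpl g) := Isometry.of_dist_eq fun x y => rfl
  have hd : ∀ p : P, dist (Sum.inl (Φ p) : Cpl f ⊕ Cpl g) (Sum.inr (Ψ p)) = ε := fun p =>
    Metric.glueDist_glued_points Φ Ψ ε p
  have hle : ∀ τ : ℝ, 0 < τ → rhoGH f g ≤ ENNReal.ofReal (ε + τ) := by
    intro τ hτ
    have hle1 : rhoGH f g ≤ hausdorffEDist (range (Sum.inl : Cpl f → Cpl f ⊕ Cpl g))
        (range (Sum.inr : Cpl g → Cpl f ⊕ Cpl g)) := by
      unfold rhoGH
      exact iInf_le_of_le _ (iInf_le_of_le mZ (iInf_le_of_le _ (iInf_le_of_le _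
        (iInf_le_of_le hi (iInf_le_of_le hj le_rfl)))))
    refine hle1.trans ?_
    apply hausdorffEDist_le_of_mem_edist
    · rintro _ ⟨x, rfl⟩
      obtain ⟨m, hm⟩ := (denseRange_toCpl f).exists_dist_lt x hτ
      obtain ⟨n, hn⟩ := h1 m
      refine ⟨Sum.inr (toCpl g n), mem_range_self _, ?_⟩
      rw [edist_le_ofReal (by positivity)]
      have h4 := dist_triangle (Sum.inl x : Cpl f ⊕ Cpl g) (Sum.inl (toCpl f m))
        (Sum.inr (toCpl g n))
      have h5 := hd ⟨(m, n), hn⟩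
      rw [hi.dist_eq] at h4
      simp only [Φ, Ψ] at h5
      linarith
    · rintro _ ⟨y, rfl⟩
      obtain ⟨n, hn⟩ := (denseRange_toCpl g).exists_dist_lt y hτ
      obtain ⟨m, hm⟩ := h2 n
      refine ⟨Sum.inl (toCpl f m), mem_range_self _, ?_⟩
      rw [edist_comm, edist_le_ofReal (by positivity)]
      have h4 := dist_triangle (Sum.inl (toCpl f m) : Cpl f ⊕ Cpl g) (Sum.inr (toCpl g n))
        (Sum.inr y)
      have h5 := hd ⟨(m, n), hm⟩
      rw [hj.dist_eq, dist_comm (toCpl g n)] at h4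
      simp only [Φ, Ψ] at h5
      linarith
  apply ENNReal.le_of_forall_pos_le_add
  intro τ hτ _
  have := hle τ (by exact_mod_cast hτ)
  rwa [ENNReal.ofReal_add hε.le (by positivity), ENNReal.ofReal_coe_nnreal] at this

end Pool.Agent.LibUrysohn
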