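import Mathlib
import Pool.Agent.LibUrysohn.Corr

/-!
The Gromov-Hausdorff distance reduces to the orbit pseudometric of the Urysohn space.
-/

namespace Pool.Agent.LibUrysohn

open Set Metric Topology TopologicalSpace
open scoped ENNReal NNReal

universe u v w

/-- The canonical coding space: vertices, and for each ordered pair of vertices a ray. -/
inductive ZPt : Type
  | vtx (a : ℕ × ℕ)
  | ray (a b : ℕ × ℕ) (t : ℝ≥0)

/-- The distance on the coding space. -/
noncomputable def zdist : ZPt → ZPt → ℝ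
  | .vtx a, .vtx b => if a = b then 0 else 1
  | .vtx c, .ray a b t => (if c = a ∨ c = b then 2 else 3) + t
  | .ray a b t, .vtx c => (if c = a ∨ c = b then 2 else 3) + t
  | .ray a b t, .ray a' b' s => if a = a' ∧ b = b' then |(t : ℝ) - s| else 4 + t + s

theorem zdist_self (x : ZPt) : zdist x x = 0 := by
  rcases x with a | ⟨a, b, t⟩ <;> simp [zdist]

theorem zdist_comm (x y : ZPt) : zdist x y = zdist y x := by
  rcases x with a | ⟨a, b, t⟩ <;> rcases y with a' | ⟨a', b', s⟩
  · by_cases h : a = a'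
    · simp [zdist, h]
    · simp [zdist, h, Ne.symm h]
  · rfl
  · rfl
  · by_cases h : a = a' ∧ b = b'
    · simp only [zdist]
      rw [if_pos h, if_pos ⟨h.1.symm, h.2.symm⟩, abs_sub_comm]
    · simp only [zdist]
      rw [if_neg h, if_neg (fun h' => h ⟨h'.1.symm, h'.2.symm⟩)]
      ring

theorem eq_of_zdist (x y : ZPt) (h : zdist x y = 0) : x = y := by
  rcases x with a | ⟨a, b, t⟩ <;> rcases y with a' | ⟨a', b', s⟩
  · simp only [zdist] at h
    split_ifs at h with h1
    · rw [h1]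
    · norm_num at h
  · simp only [zdist] at h
    have := s.2
    have h0 : (0 : ℝ) ≤ s := s.2
    split_ifs at h <;> linarith
  · simp only [zdist] at h
    have h0 : (0 : ℝ) ≤ t := t.2
    split_ifs at h <;> linarith
  · simp only [zdist] at h
    have h0 : (0 : ℝ) ≤ t := t.2
    have h0' : (0 : ℝ) ≤ s := s.2
    split_ifs at h with h1
    · obtain ⟨rfl, rfl⟩ := h1
      rw [abs_eq_zero, sub_eq_zero] at h
      rw [NNReal.coe_injective h]
    · linarith

theorem zdist_triangle (x y z : ZPt) : zdist x z ≤ zdist x y + zdist y z := by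
  rcases x with a | ⟨a, b, t⟩ <;> rcases y with a' | ⟨a', b', s⟩ <;>
    rcases z with a'' | ⟨a'', b'', r⟩
  · simp only [zdist]
    by_cases h1 : a = a''
    · rw [if_pos h1]
      split_ifs <;> norm_num
    · rw [if_neg h1]
      by_cases h2 : a = a'
      · subst h2
        rw [if_pos rfl, if_neg h1]
        norm_num
      · rw [if_neg h2]
        split_ifs <;> norm_num
  · simp only [zdist]
    have h0 : (0 : ℝ) ≤ r := r.2
    by_cases h1 : a = a'
    · subst h1
      rw [if_pos rfl, zero_add]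
    · rw [if_neg h1]
      split_ifs <;> linarith
  · simp only [zdist]
    have h0 : (0 : ℝ) ≤ s := s.2
    split_ifs <;> linarith
  · simp only [zdist]
    have h0 : (0 : ℝ) ≤ s := s.2
    have h0' : (0 : ℝ) ≤ r := r.2
    by_cases h1 : a' = a'' ∧ b' = b''
    · obtain ⟨rfl, rfl⟩ := h1
      rw [if_pos (⟨rfl, rfl⟩ : a' = a' ∧ b' = b')]
      have := neg_abs_le ((s : ℝ) - r)
      split_ifs <;> linarith
    · rw [if_neg h1]
      split_ifs <;> linarith
  · simp only [zdist]
    have h0 : (0 : ℝ) ≤ t := t.2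
    by_cases h1 : a' = a''
    · subst h1
      rw [if_pos rfl, add_zero]
    · rw [if_neg h1]
      split_ifs <;> linarith
  · simp only [zdist]
    have h0 : (0 : ℝ) ≤ t := t.2
    have h0' : (0 : ℝ) ≤ r := r.2
    by_cases h1 : a = a'' ∧ b = b''
    · rw [if_pos h1]
      have h2 : |(t : ℝ) - r| ≤ t + r := by
        rw [abs_le]
        constructor <;> linarith
      split_ifs <;> linarith
    · rw [if_neg h1]
      split_ifs <;> linarith
  · simp only [zdist]
    have h0 : (0 : ℝ) ≤ t := t.2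
    have h0' : (0 : ℝ) ≤ s := s.2
    by_cases h1 : a = a' ∧ b = b'
    · obtain ⟨rfl, rfl⟩ := h1
      rw [if_pos (⟨rfl, rfl⟩ : a = a ∧ b = b)]
      have := le_abs_self ((t : ℝ) - s)
      split_ifs <;> linarith
    · rw [if_neg h1]
      split_ifs <;> linarith
  · simp only [zdist]
    have h0 : (0 : ℝ) ≤ t := t.2
    have h0' : (0 : ℝ) ≤ s := s.2
    have h0'' : (0 : ℝ) ≤ r := r.2
    have h5 := le_abs_self ((t : ℝ) - s)
    have h6 := neg_abs_le ((s : ℝ) - r)
    have h7 : |(t : ℝ) - r| ≤ t + r := by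
      rw [abs_le]
      constructor <;> linarith
    by_cases h1 : a = a' ∧ b = b'
    · obtain ⟨rfl, rfl⟩ := h1
      rw [if_pos (⟨rfl, rfl⟩ : a = a ∧ b = b)]
      by_cases h2 : a = a'' ∧ b = b''
      · rw [if_pos h2, if_pos h2]
        exact abs_sub_le _ _ _
      · rw [if_neg h2, if_neg h2]
        linarith
    · rw [if_neg h1]
      by_cases h2 : a' = a'' ∧ b' = b''
      · obtain ⟨rfl, rfl⟩ := h2
        rw [if_neg h1, if_pos (⟨rfl, rfl⟩ : a' = a' ∧ b' = b')]
        linarith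
      · rw [if_neg h2]
        split_ifs <;> linarith

noncomputable instance : MetricSpace ZPt where
  dist := zdist
  dist_self := zdist_self
  dist_comm := zdist_comm
  dist_triangle := zdist_triangle
  eq_of_dist_eq_zero := fun {x y} h => eq_of_zdist x y h

theorem dist_vtx_vtx (a b : ℕ × ℕ) : dist (ZPt.vtx a) (ZPt.vtx b) = if a = b then 0 else 1 := rfl

theorem dist_vtx_ray (c a b : ℕ × ℕ) (t : ℝ≥0) :
    dist (ZPt.vtx c) (ZPt.ray a b t) = (if c = a ∨ c = b then 2 else 3) + t := rfl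

theorem dist_ray_vtx (c a b : ℕ × ℕ) (t : ℝ≥0) :
    dist (ZPt.ray a b t) (ZPt.vtx c) = (if c = a ∨ c = b then 2 else 3) + t := rfl

theorem dist_ray_ray (a b a' b' : ℕ × ℕ) (t s : ℝ≥0) :
    dist (ZPt.ray a b t) (ZPt.ray a' b' s) =
      if a = a' ∧ b = b' then |(t : ℝ) - s| else 4 + t + s := rfl

theorem isometry_ray (a b : ℕ × ℕ) : Isometry (ZPt.ray a b) := by
  apply Isometry.of_dist_eq
  intro t s
  rw [dist_ray_ray, if_pos ⟨rfl, rfl⟩, NNReal.dist_eq]

instance : Nonempty ZPt := ⟨.vtx (0, 0)⟩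

instance : SeparableSpace ZPt := by
  rw [← isSeparable_univ_iff]
  have h : (univ : Set ZPt) ⊆ (⋃ a, {ZPt.vtx a}) ∪ ⋃ (p : (ℕ × ℕ) × (ℕ × ℕ)),
      range (ZPt.ray p.1 p.2) := by
    rintro (a | ⟨a, b, t⟩) -
    · left
      rw [mem_iUnion]
      exact ⟨a, rfl⟩
    · right
      rw [mem_iUnion]
      exact ⟨(a, b), t, rfl⟩
  refine IsSeparable.mono ?_ h
  apply IsSeparable.union
  · exact IsSeparable.iUnion fun a => (countable_singleton _).isSeparable
  · exact IsSeparable.iUnion fun p => isSeparable_range (isometry_ray _ _).continuous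

/-- Permutations of the vertices act by isometries. -/
noncomputable def zperm (σ : Equiv.Perm (ℕ × ℕ)) : ZPt ≃ᵢ ZPt where
  toFun
    | .vtx a => .vtx (σ a)
    | .ray a b t => .ray (σ a) (σ b) t
  invFun
    | .vtx a => .vtx (σ.symm a)
    | .ray a b t => .ray (σ.symm a) (σ.symm b) t
  left_inv := by
    rintro (a | ⟨a, b, t⟩) <;> simp
  right_inv := by
    rintro (a | ⟨a, b, t⟩) <;> simp
  isometry_toFun := by
    apply Isometry.of_dist_eq
    rintro (a | ⟨a, b, t⟩) (a' | ⟨a', b', s⟩)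
    · simp only [dist_vtx_vtx, σ.injective.eq_iff]
    · simp only [dist_vtx_ray, σ.injective.eq_iff]
    · simp only [dist_ray_vtx, σ.injective.eq_iff]
    · simp only [dist_ray_ray, σ.injective.eq_iff]

theorem zperm_vtx (σ : Equiv.Perm (ℕ × ℕ)) (a : ℕ × ℕ) : zperm σ (.vtx a) = .vtx (σ a) := rfl

theorem zperm_ray (σ : Equiv.Perm (ℕ × ℕ)) (a b : ℕ × ℕ) (t : ℝ≥0) :
    zperm σ (.ray a b t) = .ray (σ a) (σ b) t := rfl

/-- The value of a metric, as a nonnegative real. -/
def nval (f : NatMetric) (m n : ℕ) : ℝ≥0 := ⟨f.1 m n, f.nonneg m n⟩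

theorem coe_nval (f : NatMetric) (m n : ℕ) : (nval f m n : ℝ) = f.1 m n := rfl

/-- The coding points. -/
def qpt (f : NatMetric) : (ℕ × ℕ) ⊕ ((ℕ × ℕ) × (ℕ × ℕ)) → ZPt
  | .inl a => .vtx a
  | .inr p => .ray p.1 p.2 (nval f p.1.1 p.2.1)

theorem one_le_dist_qpt (f : NatMetric) (i j : (ℕ × ℕ) ⊕ ((ℕ × ℕ) × (ℕ × ℕ))) (h : i ≠ j) :
    1 ≤ dist (qpt f i) (qpt f j) := by
  rcases i with a | p <;> rcases j with b | q
  · have h1 : a ≠ b := fun h' => h (by rw [h'])
    simp only [qpt]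
    rw [dist_vtx_vtx, if_neg h1]
  · simp only [qpt]
    rw [dist_vtx_ray]
    have h0 : (0 : ℝ) ≤ nval f q.1.1 q.2.1 := NNReal.coe_nonneg _
    split_ifs <;> linarith
  · simp only [qpt]
    rw [dist_ray_vtx]
    have h0 : (0 : ℝ) ≤ nval f p.1.1 p.2.1 := NNReal.coe_nonneg _
    split_ifs <;> linarith
  · have h1 : ¬ (p.1 = q.1 ∧ p.2 = q.2) := fun h' => h (by rw [Prod.ext h'.1 h'.2])
    simp only [qpt]
    rw [dist_ray_ray, if_neg h1]
    have h0 : (0 : ℝ) ≤ nval f p.1.1 p.2.1 := NNReal.coe_nonneg _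
    have h0' : (0 : ℝ) ≤ nval f q.1.1 q.2.1 := NNReal.coe_nonneg _
    linarith

section

variable {U : Type u} [MetricSpace U] (i : ZPt → U) (hi : Isometry i)

/-- The coding closed set. -/
def cset (hi : Isometry i) (f : NatMetric) : Closeds U :=
  ⟨range (fun j => i (qpt f j)), by
    apply Metric.isClosed_of_pairwise_le_dist (ε := 1) one_pos
    rintro _ ⟨j, rfl⟩ _ ⟨k, rfl⟩ hne
    simp only
    rw [hi.dist_eq]
    apply one_le_dist_qpt
    rintro rfl
    exact hne rfl⟩

theorem coe_cset (f : NatMetric) : (cset i hi f : Set U) = range (fun j => i (qpt f j)) := rfl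

theorem measurable_cset : @Measurable _ _ (borel NatMetric) (effros U) (cset i hi) := by
  let _ := borel NatMetric
  have : BorelSpace NatMetric := ⟨rfl⟩
  apply measurable_generateFrom
  rintro _ ⟨V, hV, rfl⟩
  have h1 : (cset i hi) ⁻¹' {F : Closeds U | ((F : Set U) ∩ V).Nonempty} =
      ⋃ j, {f | i (qpt f j) ∈ V} := by
    ext f
    simp only [mem_preimage, mem_ofPred_eq, coe_cset, mem_iUnion]
    constructor
    · rintro ⟨_, ⟨j, rfl⟩, h⟩
      exact ⟨j, h⟩
    · rintro ⟨j, h⟩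
      exact ⟨_, ⟨j, rfl⟩, h⟩
  rw [h1]
  apply MeasurableSet.iUnion
  intro j
  have hcont : Continuous (fun f : NatMetric => i (qpt f j)) := by
    apply hi.continuous.comp
    rcases j with a | p
    · exact continuous_const
    · apply (isometry_ray p.1 p.2).continuous.comp
      apply Continuous.subtype_mk
      have h2 : Continuous (fun f : NatMetric => f.1) := continuous_induced_dom
      exact (continuous_apply p.2.1).comp ((continuous_apply p.1.1).comp h2)
  exact (hV.preimage hcont).measurableSet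

theorem exists_equiv_fst {P : Type} [Countable P] (u : P → ℕ) (hu : ∀ m, Infinite {x : P // u x = m}) :
    ∃ α : P ≃ ℕ × ℕ, ∀ x, (α x).1 = u x := by
  have h1 : ∀ m, Nonempty ({x : P // u x = m} ≃ ℕ) := by
    intro m
    have := hu m
    obtain ⟨h⟩ := nonempty_denumerable {x : P // u x = m}
    exact ⟨Denumerable.eqv _⟩
  let β : ∀ m, {x : P // u x = m} ≃ ℕ := fun m => (h1 m).some
  exact ⟨(Equiv.sigmaFiberEquiv u).symm.trans ((Equiv.sigmaCongrRight β).trans
    (Equiv.sigmaEquivProd ℕ ℕ)), fun x => rfl⟩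

theorem exists_perm_of_corr (R : ℕ → ℕ → Prop) (h1 : ∀ m, ∃ n, R m n) (h2 : ∀ n, ∃ m, R m n) :
    ∃ σ : Equiv.Perm (ℕ × ℕ), ∀ a, R a.1 (σ a).1 := by
  let P : Type := {p : ℕ × ℕ // R p.1 p.2} × ℕ
  obtain ⟨α, hα⟩ := exists_equiv_fst (P := P) (fun x => x.1.1.1) (by
    intro m
    obtain ⟨n, hn⟩ := h1 m
    apply Infinite.of_injective (fun k : ℕ => (⟨(⟨(m, n), hn⟩, k), rfl⟩ : {x : P // x.1.1.1 = m}))
    intro k l h
    simp only [Subtype.mk.injEq] at h
    exact (Prod.ext_iff.1 h).2)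
  obtain ⟨β, hβ⟩ := exists_equiv_fst (P := P) (fun x => x.1.1.2) (by
    intro n
    obtain ⟨m, hm⟩ := h2 n
    apply Infinite.of_injective (fun k : ℕ => (⟨(⟨(m, n), hm⟩, k), rfl⟩ : {x : P // x.1.1.2 = n}))
    intro k l h
    simp only [Subtype.mk.injEq] at h
    exact (Prod.ext_iff.1 h).2)
  refine ⟨α.symm.trans β, fun a => ?_⟩
  have h3 := hα (α.symm a)
  rw [α.apply_symm_apply] at h3
  rw [Equiv.trans_apply, hβ, h3]
  exact (α.symm a).1.2

/-- Coding is Lipschitz. -/
theorem rhoIso_cset_le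
    (hext : ∀ σ : ZPt ≃ᵢ ZPt, ∃ τ : U ≃ᵢ U, ∀ z, τ (i z) = i (σ z))
    (f g : NatMetric) (δ : ℝ) (hδ : 0 < δ) (h : rhoGH f g < ENNReal.ofReal δ) :
    rhoIso U (cset i hi f) (cset i hi g) ≤ ENNReal.ofReal (2 * δ) := by
  obtain ⟨R, hR1, hR2, hR⟩ := exists_corr h
  obtain ⟨σ, hσ⟩ := exists_perm_of_corr R hR1 hR2
  obtain ⟨τ, hτ⟩ := hext (zperm σ)
  unfold rhoIso
  refine (iInf_le_of_le τ (iInf_le _ (IsometryEquiv.refl U))).trans ?_
  have hrefl : (⇑(IsometryEquiv.refl U) '' (cset i hi g : Set U)) = (cset i hi g : Set U) :=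
    Set.image_id _
  rw [hrefl]
  have hkey : ∀ a b : ℕ × ℕ, dist (i (.ray (σ a) (σ b) (nval f a.1 b.1)))
      (i (.ray (σ a) (σ b) (nval g (σ a).1 (σ b).1))) ≤ 2 * δ := by
    intro a b
    rw [hi.dist_eq, dist_ray_ray, if_pos ⟨rfl, rfl⟩, coe_nval, coe_nval]
    exact hR _ _ _ _ (hσ a) (hσ b)
  apply hausdorffEDist_le_of_mem_edist
  · rintro _ ⟨_, ⟨j, rfl⟩, rfl⟩
    rcases j with a | p
    · refine ⟨i (.vtx (σ a)), ⟨.inl (σ a), rfl⟩, ?_⟩
      simp only [qpt]
      rw [hτ, zperm_vtx, edist_self]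
      exact zero_le
    · refine ⟨i (.ray (σ p.1) (σ p.2) (nval g (σ p.1).1 (σ p.2).1)),
        ⟨.inr (σ p.1, σ p.2), rfl⟩, ?_⟩
      simp only [qpt]
      rw [hτ, zperm_ray, edist_le_ofReal (by positivity)]
      exact hkey _ _
  · rintro _ ⟨j, rfl⟩
    rcases j with a | p
    · refine ⟨i (.vtx a), ⟨i (.vtx (σ.symm a)), ⟨.inl (σ.symm a), rfl⟩, ?_⟩, ?_⟩
      · rw [hτ, zperm_vtx, σ.apply_symm_apply]
      · simp only [qpt]
        rw [edist_self]
        exact zero_le
    · refine ⟨i (.ray p.1 p.2 (nval f (σ.symm p.1).1 (σ.symm p.2).1)),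
        ⟨i (.ray (σ.symm p.1) (σ.symm p.2) (nval f (σ.symm p.1).1 (σ.symm p.2).1)),
        ⟨.inr (σ.symm p.1, σ.symm p.2), rfl⟩, ?_⟩, ?_⟩
      · rw [hτ, zperm_ray, σ.apply_symm_apply, σ.apply_symm_apply]
      · simp only [qpt]
        rw [edist_comm, edist_le_ofReal (by positivity)]
        have := hkey (σ.symm p.1) (σ.symm p.2)
        rwa [σ.apply_symm_apply, σ.apply_symm_apply] at this

/-- Decoding. -/
theorem rhoGH_le_of_cset (f g : NatMetric) (δ : ℝ) (hδ : 0 < δ) (hδ1 : δ ≤ 1 / 8)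
    (h : rhoIso U (cset i hi f) (cset i hi g) < ENNReal.ofReal δ) :
    rhoGH f g ≤ ENNReal.ofReal δ := by
  unfold rhoIso at h
  simp only [iInf_lt_iff] at h
  obtain ⟨τ, τ', h⟩ := h
  -- the matching of coding points
  let M : (ℕ × ℕ) ⊕ ((ℕ × ℕ) × (ℕ × ℕ)) → (ℕ × ℕ) ⊕ ((ℕ × ℕ) × (ℕ × ℕ)) → Prop := fun j k =>
    dist (τ (i (qpt f j))) (τ' (i (qpt g k))) < δ
  have hM1 : ∀ j, ∃ k, M j k := by
    intro j
    obtain ⟨_, ⟨_, ⟨k, rfl⟩, rfl⟩, hk⟩ := exists_edist_lt_of_hausdorffEDist_lt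
      (mem_image_of_mem τ (mem_range_self (f := fun j => i (qpt f j)) j)) h
    exact ⟨k, by rwa [edist_lt_ofReal] at hk⟩
  have hM2 : ∀ k, ∃ j, M j k := by
    intro k
    rw [hausdorffEDist_comm] at h
    obtain ⟨_, ⟨_, ⟨j, rfl⟩, rfl⟩, hk⟩ := exists_edist_lt_of_hausdorffEDist_lt
      (mem_image_of_mem τ' (mem_range_self (f := fun j => i (qpt g j)) k)) h
    exact ⟨j, by rwa [edist_comm, edist_lt_ofReal] at hk⟩
  have hM : ∀ j k j' k', M j k → M j' k' →
      |dist (qpt f j) (qpt f j') - dist (qpt g k) (qpt g k')| < 2 * δ := by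
    intro j k j' k' h1 h2
    rw [← hi.dist_eq (qpt f j), ← hi.dist_eq (qpt g k), ← τ.dist_eq,
      ← τ'.dist_eq (i (qpt g k))]
    have h3 := dist_triangle4 (τ (i (qpt f j))) (τ' (i (qpt g k))) (τ' (i (qpt g k')))
      (τ (i (qpt f j')))
    have h4 := dist_triangle4 (τ' (i (qpt g k))) (τ (i (qpt f j))) (τ (i (qpt f j')))
      (τ' (i (qpt g k')))
    rw [dist_comm (τ' (i (qpt g k'))) (τ (i (qpt f j')))] at h3
    rw [dist_comm (τ' (i (qpt g k))) (τ (i (qpt f j)))] at h4
    simp only [M] at h1 h2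
    rw [abs_lt]
    constructor <;> linarith
  -- vertices are matched to vertices
  have hpos : ∀ (f : NatMetric) m n, (0 : ℝ) ≤ nval f m n := fun f m n => NNReal.coe_nonneg _
  have hvv : ∀ a k, M (.inl a) k → ∃ b, k = .inl b := by
    intro a k hk
    rcases k with b | p
    · exact ⟨b, rfl⟩
    · exfalso
      obtain ⟨a', ha'⟩ : ∃ a' : ℕ × ℕ, a ≠ a' := ⟨(a.1 + 1, a.2), fun h => by
        have := congrArg Prod.fst h
        simp at this⟩
      obtain ⟨k', hk'⟩ := hM1 (.inl a')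
      have h1 := hM _ _ _ _ hk hk'
      simp only [qpt] at h1
      rw [dist_vtx_vtx, if_neg ha'] at h1
      rcases k' with b' | p'
      · simp only at h1
        rw [dist_ray_vtx, abs_lt] at h1
        have := hpos g p.1.1 p.2.1
        split_ifs at h1 <;> linarith [h1.1]
      · simp only at h1
        have h2 := hpos g p.1.1 p.2.1
        have h3 := hpos g p'.1.1 p'.2.1
        by_cases hp : p.1 = p'.1 ∧ p.2 = p'.2
        · rw [← hp.1, ← hp.2, dist_self, sub_zero, abs_lt] at h1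
          linarith [h1.2]
        · rw [dist_ray_ray, if_neg hp, abs_lt] at h1
          linarith [h1.1]
  have hvv' : ∀ j b, M j (.inl b) → ∃ a, j = .inl a := by
    intro j b hk
    rcases j with a | p
    · exact ⟨a, rfl⟩
    · exfalso
      obtain ⟨b', hb'⟩ : ∃ b' : ℕ × ℕ, b ≠ b' := ⟨(b.1 + 1, b.2), fun h => by
        have := congrArg Prod.fst h
        simp at this⟩
      obtain ⟨j', hj'⟩ := hM2 (.inl b')
      have h1 := hM _ _ _ _ hk hj'
      simp only [qpt] at h1
      rw [dist_vtx_vtx, if_neg hb'] at h1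
      rcases j' with a' | p'
      · simp only at h1
        rw [dist_ray_vtx, abs_lt] at h1
        have := hpos f p.1.1 p.2.1
        split_ifs at h1 <;> linarith [h1.2]
      · simp only at h1
        have h2 := hpos f p.1.1 p.2.1
        have h3 := hpos f p'.1.1 p'.2.1
        by_cases hp : p.1 = p'.1 ∧ p.2 = p'.2
        · rw [← hp.1, ← hp.2, dist_self, abs_lt] at h1
          linarith [h1.1]
        · rw [dist_ray_ray, if_neg hp, abs_lt] at h1
          linarith [h1.2]
  let R : ℕ → ℕ → Prop := fun m n => ∃ a b : ℕ × ℕ, a.1 = m ∧ b.1 = n ∧ M (.inl a) (.inl b)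
  apply rhoGH_le_of_corr hδ R
  · intro m
    obtain ⟨k, hk⟩ := hM1 (.inl (m, 0))
    obtain ⟨b, rfl⟩ := hvv _ _ hk
    exact ⟨b.1, (m, 0), b, rfl, rfl, hk⟩
  · intro n
    obtain ⟨j, hj⟩ := hM2 (.inl (n, 0))
    obtain ⟨a, rfl⟩ := hvv' _ _ hj
    exact ⟨a.1, a, (n, 0), rfl, rfl, hj⟩
  · rintro m n m' n' ⟨a, b, rfl, rfl, hab⟩ ⟨a', b', rfl, rfl, hab'⟩
    have h1 := hM _ _ _ _ hab hab'
    simp only [qpt] at h1
    rw [dist_vtx_vtx, dist_vtx_vtx] at h1
    by_cases haa : a = a'
    · subst haa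
      rw [if_pos rfl] at h1
      have hbb : b = b' := by
        by_contra hne
        rw [if_neg hne, abs_lt] at h1
        linarith [h1.1]
      subst hbb
      rw [(f.2.1 _ _).2 rfl, (g.2.1 _ _).2 rfl, sub_self, abs_zero]
      positivity
    · rw [if_neg haa] at h1
      have hbb : b ≠ b' := by
        intro heq
        rw [if_pos heq, abs_lt] at h1
        linarith [h1.2]
      obtain ⟨k, hk⟩ := hM1 (.inr (a, a'))
      have h2 := hM _ _ _ _ hab hk
      have h3 := hM _ _ _ _ hab' hk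
      rcases k with c | ⟨c, d⟩
      · exfalso
        simp only [qpt] at h2
        rw [dist_vtx_vtx, dist_vtx_ray, abs_lt] at h2
        have := hpos f a.1 a'.1
        split_ifs at h2 <;> linarith [h2.2]
      · simp only [qpt] at h2 h3
        rw [dist_vtx_ray, dist_vtx_ray, if_pos (Or.inl rfl), coe_nval, coe_nval] at h2
        rw [dist_vtx_ray, dist_vtx_ray, if_pos (Or.inr rfl), coe_nval, coe_nval] at h3
        rw [abs_lt] at h2 h3
        -- `b` and `b'` must both lie in `{c, d}`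
        have hc : b = c ∨ b = d := by
          by_contra hne
          rw [if_neg hne] at h2
          obtain ⟨j, hj⟩ := hM2 (.inl c)
          obtain ⟨x, rfl⟩ := hvv' _ _ hj
          have h4 := hM _ _ _ _ hj hk
          simp only [qpt] at h4
          rw [dist_vtx_ray, dist_vtx_ray, if_pos (Or.inl rfl : c = c ∨ c = d), coe_nval,
            coe_nval, abs_lt] at h4
          split_ifs at h4 <;> linarith [h2.1, h2.2, h4.1, h4.2]
        have hd : b' = c ∨ b' = d := by
          by_contra hne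
          rw [if_neg hne] at h3
          rw [if_pos hc] at h2
          linarith [h2.1, h2.2, h3.1, h3.2]
        rw [if_pos hc] at h2
        have hval : g.1 c.1 d.1 = g.1 b.1 b'.1 := by
          rcases hc with rfl | rfl
          · rcases hd with rfl | rfl
            · exact absurd rfl hbb
            · rfl
          · rcases hd with rfl | rfl
            · exact g.2.2.1 _ _
            · exact absurd rfl hbb
        rw [hval] at h2
        rw [abs_le]
        constructor <;> linarith [h2.1, h2.2]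

end

/-- The Gromov-Hausdorff distance reduces to the orbit pseudometric. -/
theorem rhoGH_reducible (U : Type u) [MetricSpace U] (hU : IsUrysohn U) :
    BUReducible (borel NatMetric) (effros U) rhoGH (rhoIso U) := by
  obtain ⟨i, hi, hext⟩ := hU.exists_equivariant_embedding ZPt
  refine ⟨cset i hi, measurable_cset i hi, fun ε hε => ?_⟩
  refine ⟨ε / 4, by positivity, min ε 1 / 8, by positivity, fun f g => ⟨fun h => ?_, fun h => ?_⟩⟩
  · refine (rhoIso_cset_le i hi hext f g (ε / 4) (by positivity) h).trans_lt ?_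
    rw [ENNReal.ofReal_lt_ofReal_iff hε]
    linarith
  · have h1 : 0 < min ε 1 := by positivity
    have h2 : min ε 1 ≤ 1 := min_le_right _ _
    have h3 : min ε 1 ≤ ε := min_le_left _ _
    refine (rhoGH_le_of_cset i hi f g (min ε 1 / 8) (by positivity) (by linarith) h).trans_lt ?_
    rw [ENNReal.ofReal_lt_ofReal_iff hε]
    linarith

end Pool.Agent.LibUrysohn
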