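import Mathlib
import Pool.Agent.LibUrysohn.Corr

/-!
The orbit pseudometric of the Urysohn space reduces to the Gromov-Hausdorff distance.
-/

namespace Pool.Agent.LibUrysohn

open Set Metric Topology TopologicalSpace
open scoped ENNReal

universe u v w

/-- The level `k` truncation. -/
noncomputable def lev (k : ℕ) (t : ℝ) : ℝ := min (2 ^ k * t) (4 ^ k)

theorem lev_nonneg (k : ℕ) {t : ℝ} (ht : 0 ≤ t) : 0 ≤ lev k t := by
  unfold lev
  positivity

theorem lev_le (k : ℕ) (t : ℝ) : lev k t ≤ 4 ^ k := min_le_right _ _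

theorem lev_le' (k : ℕ) (t : ℝ) : lev k t ≤ 2 ^ k * t := min_le_left _ _

theorem lev_zero (k : ℕ) : lev k 0 = 0 := by
  unfold lev
  rw [mul_zero]
  exact min_eq_left (by positivity)

theorem lev_mono (k : ℕ) {s t : ℝ} (h : s ≤ t) : lev k s ≤ lev k t := by
  unfold lev
  apply min_le_min_right
  exact mul_le_mul_of_nonneg_left h (by positivity)

theorem lev_add_le (k : ℕ) {s t : ℝ} (hs : 0 ≤ s) (ht : 0 ≤ t) :
    lev k (s + t) ≤ lev k s + lev k t := by
  have h0 : (0 : ℝ) ≤ 2 ^ k := by positivity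
  have h4 : (0 : ℝ) ≤ 4 ^ k := by positivity
  have h1 : (0 : ℝ) ≤ 2 ^ k * s := mul_nonneg h0 hs
  have h2 : (0 : ℝ) ≤ 2 ^ k * t := mul_nonneg h0 ht
  unfold lev
  rw [mul_add]
  rcases min_cases (2 ^ k * s) ((4 : ℝ) ^ k) with h | h <;>
  rcases min_cases (2 ^ k * t) ((4 : ℝ) ^ k) with h' | h' <;>
  rcases min_cases (2 ^ k * s + 2 ^ k * t) ((4 : ℝ) ^ k) with h'' | h'' <;>
  rw [h.1, h'.1, h''.1] <;> linarith [h.2, h'.2, h''.2]

theorem lev_mono_left {k l : ℕ} (h : k ≤ l) {t : ℝ} (ht : 0 ≤ t) : lev k t ≤ lev l t := by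
  unfold lev
  apply min_le_min
  · exact mul_le_mul_of_nonneg_right (pow_le_pow_right₀ (by norm_num) h) ht
  · exact pow_le_pow_right₀ (by norm_num) h

theorem lev_pos (k : ℕ) {t : ℝ} (ht : 0 < t) : 0 < lev k t := by
  unfold lev
  positivity

theorem lev_triangle {U : Type u} [MetricSpace U] (k : ℕ) (x y z : U) :
    lev k (dist x y) ≤ lev k (dist x z) + lev k (dist z y) :=
  (lev_mono k (dist_triangle x z y)).trans (lev_add_le k dist_nonneg dist_nonneg)

theorem le_of_lev_le {k : ℕ} {t c : ℝ} (hc : c < 1) (h : lev k t ≤ c) : 2 ^ k * t ≤ c := by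
  unfold lev at h
  rcases min_le_iff.1 h with h | h
  · exact h
  · have : (1 : ℝ) ≤ 4 ^ k := one_le_pow₀ (by norm_num)
    linarith

/-- The level gap. -/
noncomputable def gap (k l : ℕ) : ℝ := if k = l then 0 else 8 ^ (max k l + 1)

theorem gap_nonneg (k l : ℕ) : 0 ≤ gap k l := by
  unfold gap
  split_ifs
  · exact le_rfl
  · positivity

theorem gap_comm (k l : ℕ) : gap k l = gap l k := by
  unfold gap
  rw [max_comm]
  by_cases h : k = l
  · subst h
    rfl
  · rw [if_neg h, if_neg (Ne.symm h)]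

theorem eight_mono {k l : ℕ} (h : k ≤ l) : (8 : ℝ) ^ (k + 1) ≤ 8 ^ (l + 1) :=
  pow_le_pow_right₀ (by norm_num) (by omega)

theorem gap_le_add (k l : ℕ) : gap k l ≤ 8 ^ (k + 1) + 8 ^ (l + 1) := by
  unfold gap
  split_ifs
  · positivity
  · rcases le_total k l with h | h
    · rw [max_eq_right h]
      have : (0 : ℝ) ≤ 8 ^ (k + 1) := by positivity
      linarith
    · rw [max_eq_left h]
      have : (0 : ℝ) ≤ 8 ^ (l + 1) := by positivity
      linarith

theorem gap_ge_left {k l : ℕ} (h : k ≠ l) : (8 : ℝ) ^ (k + 1) ≤ gap k l := by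
  unfold gap
  rw [if_neg h]
  exact eight_mono (le_max_left _ _)

theorem gap_ge_right {k l : ℕ} (h : k ≠ l) : (8 : ℝ) ^ (l + 1) ≤ gap k l := by
  unfold gap
  rw [if_neg h]
  exact eight_mono (le_max_right _ _)

theorem gap_triangle (k l j : ℕ) : gap k l ≤ gap k j + gap j l := by
  by_cases h : k = l
  · subst h
    have := gap_nonneg k j
    have := gap_nonneg j k
    have h2 : gap k k = 0 := by
      unfold gap
      rw [if_pos rfl]
    linarith
  · have h1 : gap k l = 8 ^ (max k l + 1) := by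
      unfold gap
      rw [if_neg h]
    by_cases hkj : k = j
    · subst hkj
      have := gap_nonneg k k
      linarith
    · by_cases hjl : j = l
      · subst hjl
        have := gap_nonneg j j
        linarith
      · have h2 := gap_ge_left hkj
        have h3 := gap_ge_right hjl
        have h4 := gap_nonneg k j
        have h5 := gap_nonneg j l
        rcases le_total k l with h6 | h6
        · rw [max_eq_right h6] at h1
          linarith
        · rw [max_eq_left h6] at h1
          linarith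

theorem four_le_eight (k : ℕ) : (4 : ℝ) ^ k ≤ 8 ^ (k + 1) := by
  calc (4 : ℝ) ^ k ≤ 8 ^ k := pow_le_pow_left₀ (by norm_num) (by norm_num) k
    _ ≤ 8 ^ (k + 1) := pow_le_pow_right₀ (by norm_num) (by omega)

theorem eight_le (k : ℕ) : (8 : ℝ) ≤ 8 ^ (k + 1) := by
  calc (8 : ℝ) = 8 ^ (0 + 1) := by norm_num
    _ ≤ 8 ^ (k + 1) := eight_mono (Nat.zero_le k)

/-- The coding space, for a function `P` on `U`. -/
noncomputable def wd {U : Type u} [MetricSpace U] (P : U → ℝ) :
    Option (U × ℕ) → Option (U × ℕ) → ℝ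
  | none, none => 0
  | none, some q => 8 ^ (q.2 + 1) + (if q.2 = 0 then P q.1 else 0)
  | some q, none => 8 ^ (q.2 + 1) + (if q.2 = 0 then P q.1 else 0)
  | some q, some r => gap q.2 r.2 + lev (min q.2 r.2) (dist q.1 r.1)

section

variable {U : Type u} [MetricSpace U] {P : U → ℝ}

theorem wd_comm (a b : Option (U × ℕ)) : wd P a b = wd P b a := by
  rcases a with _ | q <;> rcases b with _ | r
  · rfl
  · rfl
  · rfl
  · change gap q.2 r.2 + lev (min q.2 r.2) (dist q.1 r.1) =
      gap r.2 q.2 + lev (min r.2 q.2) (dist r.1 q.1)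
    rw [gap_comm, min_comm, dist_comm]

theorem wd_eq_zero (h0 : ∀ x, 0 ≤ P x) (a b : Option (U × ℕ)) : wd P a b = 0 ↔ a = b := by
  rcases a with _ | q <;> rcases b with _ | r
  · simp [wd]
  · simp only [wd, reduceCtorEq, iff_false]
    have := eight_le r.2
    have := h0 r.1
    split_ifs <;> linarith
  · simp only [wd, reduceCtorEq, iff_false]
    have := eight_le q.2
    have := h0 q.1
    split_ifs <;> linarith
  · simp only [wd, Option.some.injEq]
    constructor
    · intro h
      have h1 := gap_nonneg q.2 r.2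
      have h2 := lev_nonneg (min q.2 r.2) (dist_nonneg (x := q.1) (y := r.1))
      have h3 : gap q.2 r.2 = 0 := by linarith
      have h4 : lev (min q.2 r.2) (dist q.1 r.1) = 0 := by linarith
      have h5 : q.2 = r.2 := by
        by_contra hne
        have := gap_ge_left hne
        have := eight_le q.2
        linarith
      have h6 : q.1 = r.1 := by
        by_contra hne
        have := lev_pos (min q.2 r.2) (dist_pos.2 hne)
        linarith
      exact Prod.ext h6 h5
    · rintro rfl
      rw [dist_self, lev_zero]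
      unfold gap
      simp

theorem wd_triangle (h0 : ∀ x, 0 ≤ P x) (h1 : ∀ x, P x ≤ 1)
    (h2 : ∀ x y, P x ≤ P y + dist x y) (a b c : Option (U × ℕ)) :
    wd P a c ≤ wd P a b + wd P b c := by
  have hP : ∀ x y, P x ≤ P y + lev 0 (dist x y) := by
    intro x y
    unfold lev
    rw [pow_zero, pow_zero, one_mul]
    rcases min_cases (dist x y) 1 with h | h
    · rw [h.1]
      exact h2 x y
    · rw [h.1]
      have := h0 y
      have := h1 x
      linarith
  -- the value of the coded function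
  have hQ0 : ∀ q : U × ℕ, 0 ≤ (if q.2 = 0 then P q.1 else 0) := by
    intro q
    split_ifs
    · exact h0 _
    · exact le_rfl
  have hQ1 : ∀ q : U × ℕ, (if q.2 = 0 then P q.1 else 0) ≤ 1 := by
    intro q
    split_ifs
    · exact h1 _
    · norm_num
  have hQ : ∀ q r : U × ℕ, 8 ^ (q.2 + 1) + (if q.2 = 0 then P q.1 else 0) ≤
      8 ^ (r.2 + 1) + (if r.2 = 0 then P r.1 else 0) +
        (gap q.2 r.2 + lev (min q.2 r.2) (dist q.1 r.1)) := by
    intro q r
    have hl := lev_nonneg (min q.2 r.2) (dist_nonneg (x := q.1) (y := r.1))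
    by_cases h : q.2 = r.2
    · rw [← h, min_self] at hl ⊢
      have hg := gap_nonneg q.2 q.2
      by_cases h' : q.2 = 0
      · rw [if_pos h', if_pos h']
        have := hP q.1 r.1
        rw [h'] at hg ⊢
        linarith
      · rw [if_neg h', if_neg h']
        linarith
    · have h3 := gap_ge_left h
      have h4 := eight_le r.2
      have h5 := hQ0 r
      have h6 := hQ1 q
      linarith
  have hlow : ∀ q r : U × ℕ, gap q.2 r.2 + lev (min q.2 r.2) (dist q.1 r.1) ≤
      8 ^ (q.2 + 1) + 8 ^ (r.2 + 1) := by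
    intro q r
    have h3 := lev_le (min q.2 r.2) (dist q.1 r.1)
    by_cases h : q.2 = r.2
    · rw [← h, min_self] at h3 ⊢
      have h4 := four_le_eight q.2
      have h5 : gap q.2 q.2 = 0 := by
        unfold gap
        simp
      have h6 := eight_le q.2
      linarith
    · have h5 : gap q.2 r.2 = 8 ^ (max q.2 r.2 + 1) := by
        unfold gap
        rw [if_neg h]
      have h4 := four_le_eight (min q.2 r.2)
      rcases le_total q.2 r.2 with h6 | h6
      · rw [max_eq_right h6] at h5
        rw [min_eq_left h6] at h3 h4 ⊢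
        linarith
      · rw [max_eq_left h6] at h5
        rw [min_eq_right h6] at h3 h4 ⊢
        linarith
  rcases a with _ | q <;> rcases b with _ | r <;> rcases c with _ | s
  · simp [wd]
  · simp [wd]
  · have h3 := hQ0 r
    have h4 := eight_le r.2
    change (0 : ℝ) ≤ (8 ^ (r.2 + 1) + (if r.2 = 0 then P r.1 else 0)) +
      (8 ^ (r.2 + 1) + (if r.2 = 0 then P r.1 else 0))
    linarith
  · change 8 ^ (s.2 + 1) + (if s.2 = 0 then P s.1 else 0) ≤
      8 ^ (r.2 + 1) + (if r.2 = 0 then P r.1 else 0) +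
      (gap r.2 s.2 + lev (min r.2 s.2) (dist r.1 s.1))
    have := hQ s r
    rwa [gap_comm, min_comm, dist_comm] at this
  · simp [wd]
  · have h3 := hlow q s
    have h4 := hQ0 q
    have h5 := hQ0 s
    change gap q.2 s.2 + lev (min q.2 s.2) (dist q.1 s.1) ≤
      (8 ^ (q.2 + 1) + (if q.2 = 0 then P q.1 else 0)) +
      (8 ^ (s.2 + 1) + (if s.2 = 0 then P s.1 else 0))
    linarith
  · have := hQ q r
    change 8 ^ (q.2 + 1) + (if q.2 = 0 then P q.1 else 0) ≤
      (gap q.2 r.2 + lev (min q.2 r.2) (dist q.1 r.1)) +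
      (8 ^ (r.2 + 1) + (if r.2 = 0 then P r.1 else 0))
    linarith
  · change gap q.2 s.2 + lev (min q.2 s.2) (dist q.1 s.1) ≤
      (gap q.2 r.2 + lev (min q.2 r.2) (dist q.1 r.1)) +
      (gap r.2 s.2 + lev (min r.2 s.2) (dist r.1 s.1))
    have hg := gap_triangle q.2 s.2 r.2
    by_cases hle : min q.2 s.2 ≤ r.2
    · have h3 := lev_triangle (min q.2 s.2) q.1 s.1 r.1
      have h4 : lev (min q.2 s.2) (dist q.1 r.1) ≤ lev (min q.2 r.2) (dist q.1 r.1) :=
        lev_mono_left (le_min (min_le_left _ _) hle) dist_nonneg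
      have h5 : lev (min q.2 s.2) (dist r.1 s.1) ≤ lev (min r.2 s.2) (dist r.1 s.1) :=
        lev_mono_left (le_min hle (min_le_right _ _)) dist_nonneg
      linarith
    · rw [not_le, lt_min_iff] at hle
      have h3 := gap_ge_left (show q.2 ≠ r.2 by omega)
      have h4 := gap_ge_right (show r.2 ≠ s.2 by omega)
      have h5 := hlow q s
      have h6 := lev_nonneg (min q.2 r.2) (dist_nonneg (x := q.1) (y := r.1))
      have h7 := lev_nonneg (min r.2 s.2) (dist_nonneg (x := r.1) (y := s.1))
      linarith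

end

/-- One half of the limiting argument. -/
theorem exists_isometry_of_levels {X : Type u} {Y : Type v} [MetricSpace X] [MetricSpace Y]
    [CompleteSpace Y] (S : ℕ → X → Y → Prop) (hS : ∀ k x, ∃ y, S k x y) (c : ℝ) (hc : c < 1)
    (H : ∀ k l x y u v, S k x y → S l u v →
      |lev (min k l) (dist x u) - lev (min k l) (dist y v)| ≤ c) :
    ∃ φ : X → Y, Isometry φ ∧ ∀ k x y, S k x y → dist y (φ x) ≤ 3 * c / 2 ^ k := by
  choose y hy using hS
  have h1 : ∀ k x, dist (y k x) (y (k + 1) x) ≤ 2 * c / 2 / 2 ^ k := by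
    intro k x
    have h2 := H k (k + 1) x (y k x) x (y (k + 1) x) (hy k x) (hy (k + 1) x)
    rw [min_eq_left (Nat.le_succ k), dist_self, lev_zero, zero_sub, abs_neg] at h2
    have h3 := le_of_lev_le hc ((le_abs_self _).trans h2)
    rw [mul_div_cancel_left₀ c (two_ne_zero), le_div_iff₀ (by positivity), mul_comm]
    exact h3
  have hlim : ∀ x, ∃ z, Filter.Tendsto (fun k => y k x) Filter.atTop (𝓝 z) := fun x =>
    cauchySeq_tendsto_of_complete (cauchySeq_of_le_geometric_two (fun k => h1 k x))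
  choose φ hφ using hlim
  have h2 : ∀ k x, dist (y k x) (φ x) ≤ 2 * c / 2 ^ k := fun k x =>
    dist_le_of_le_geometric_two_of_tendsto (fun k => h1 k x) (hφ x) k
  refine ⟨φ, ?_, ?_⟩
  · apply Isometry.of_dist_eq
    intro x u
    have h3 : Filter.Tendsto (fun k => dist (y k x) (y k u)) Filter.atTop
        (𝓝 (dist (φ x) (φ u))) := (hφ x).dist (hφ u)
    have h4 : Filter.Tendsto (fun k => dist (y k x) (y k u)) Filter.atTop (𝓝 (dist x u)) := by
      rw [tendsto_iff_dist_tendsto_zero]
      have h5 : ∀ᶠ k : ℕ in Filter.atTop, dist x u + 1 < 2 ^ k :=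
        (tendsto_pow_atTop_atTop_of_one_lt (by norm_num : (1 : ℝ) < 2)).eventually_gt_atTop _
      have h6 : Filter.Tendsto (fun k : ℕ => c * (1 / 2 : ℝ) ^ k) Filter.atTop (𝓝 0) := by
        have := (tendsto_pow_atTop_nhds_zero_of_lt_one (by norm_num : (0 : ℝ) ≤ 1 / 2)
          (by norm_num)).const_mul c
        rwa [mul_zero] at this
      refine squeeze_zero' (Filter.Eventually.of_forall fun _ => dist_nonneg) ?_ h6
      filter_upwards [h5] with k hk
      have h7 := H k k x (y k x) u (y k u) (hy k x) (hy k u)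
      rw [min_self] at h7
      have h2k : (1 : ℝ) ≤ 2 ^ k := one_le_pow₀ (by norm_num)
      have h4k : (4 : ℝ) ^ k = 2 ^ k * 2 ^ k := by
        rw [← mul_pow]
        norm_num
      have h8 : 2 ^ k * dist x u + 1 < 4 ^ k := by
        rw [h4k]
        nlinarith
      have h9 : lev k (dist x u) = 2 ^ k * dist x u := by
        unfold lev
        apply min_eq_left
        linarith
      rw [h9, abs_le] at h7
      have h10 : lev k (dist (y k x) (y k u)) = 2 ^ k * dist (y k x) (y k u) := by
        unfold lev at h7 ⊢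
        apply min_eq_left
        by_contra hne
        rw [min_eq_right (not_le.1 hne).le] at h7
        linarith [h7.1]
      rw [h10] at h7
      rw [Real.dist_eq, one_div, inv_pow, ← div_eq_mul_inv, le_div_iff₀ (by positivity)]
      rw [← abs_of_nonneg (show (0 : ℝ) ≤ 2 ^ k by positivity), ← abs_mul, abs_le]
      constructor <;> linarith [h7.1, h7.2]
    exact tendsto_nhds_unique h3 h4
  · intro k x z hz
    have h3 := H k k x (y k x) x z (hy k x) hz
    rw [min_self, dist_self, lev_zero, zero_sub, abs_neg] at h3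
    have h4 := le_of_lev_le hc ((le_abs_self _).trans h3)
    have h5 : dist (y k x) z ≤ c / 2 ^ k := by
      rw [le_div_iff₀ (by positivity), mul_comm]
      exact h4
    have h6 := dist_triangle z (y k x) (φ x)
    have h7 := h2 k x
    rw [dist_comm z (y k x)] at h6
    have h8 : 3 * c / 2 ^ k = c / 2 ^ k + 2 * c / 2 ^ k := by ring
    rw [h8]
    linarith

/-- The limiting argument. -/
theorem exists_isometryEquiv_of_levels {X : Type u} {Y : Type v} [MetricSpace X] [MetricSpace Y]
    [CompleteSpace X] [CompleteSpace Y] (S : ℕ → X → Y → Prop) (hS : ∀ k x, ∃ y, S k x y)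
    (hS' : ∀ k y, ∃ x, S k x y) (c : ℝ) (hc : c < 1)
    (H : ∀ k l x y u v, S k x y → S l u v →
      |lev (min k l) (dist x u) - lev (min k l) (dist y v)| ≤ c) :
    ∃ φ : X ≃ᵢ Y, ∀ x y, S 0 x y → dist y (φ x) ≤ 3 * c := by
  obtain ⟨φ, hφ, hφ2⟩ := exists_isometry_of_levels S hS c hc H
  obtain ⟨ψ, hψ, hψ2⟩ := exists_isometry_of_levels (fun k y x => S k x y) hS' c hc (by
    intro k l y x v u h1 h2
    rw [abs_sub_comm]
    exact H k l x y u v h1 h2)
  have h1 : ∀ y, φ (ψ y) = y := by
    intro y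
    have h2 : ∀ k : ℕ, dist y (φ (ψ y)) ≤ 6 * c * (1 / 2 : ℝ) ^ k := by
      intro k
      obtain ⟨x, hx⟩ := hS' k y
      have h3 := hφ2 k x y hx
      have h4 := hψ2 k y x hx
      rw [← hφ.dist_eq] at h4
      have h5 := dist_triangle y (φ x) (φ (ψ y))
      have h6 : 6 * c * (1 / 2 : ℝ) ^ k = 3 * c / 2 ^ k + 3 * c / 2 ^ k := by
        rw [one_div, inv_pow]
        ring
      rw [h6]
      linarith
    have h3 : Filter.Tendsto (fun k : ℕ => 6 * c * (1 / 2 : ℝ) ^ k) Filter.atTop (𝓝 0) := by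
      have := (tendsto_pow_atTop_nhds_zero_of_lt_one (by norm_num : (0 : ℝ) ≤ 1 / 2)
        (by norm_num)).const_mul (6 * c)
      rwa [mul_zero] at this
    have h4 := ge_of_tendsto' h3 h2
    exact (dist_le_zero.1 h4).symm
  have h2 : ∀ x, ψ (φ x) = x := fun x => hφ.injective (h1 (φ x))
  refine ⟨⟨⟨φ, ψ, h2, h1⟩, hφ⟩, fun x y h => ?_⟩
  have := hφ2 0 x y h
  rwa [pow_zero, div_one] at this

end Pool.Agent.LibUrysohn
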