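import Mathlib
import Pool.Agent.LibUrysohn.IsoToGH

/-!
The orbit pseudometric of the Urysohn space reduces to the Gromov-Hausdorff distance: main part.
-/

namespace Pool.Agent.LibUrysohn

open Set Metric Topology TopologicalSpace
open scoped ENNReal

universe u v w

section

variable {U : Type u} [MetricSpace U]

/-- The truncated distance to a closed set. -/
noncomputable def tdist (A : Closeds U) (x : U) : ℝ := (min (infEDist x (A : Set U)) 1).toReal

theorem tdist_nonneg (A : Closeds U) (x : U) : 0 ≤ tdist A x := ENNReal.toReal_nonneg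

theorem tdist_le_one (A : Closeds U) (x : U) : tdist A x ≤ 1 := by
  unfold tdist
  rw [← ENNReal.toReal_one]
  exact ENNReal.toReal_mono (by simp) (min_le_right _ _)

theorem tdist_ne_top (A : Closeds U) (x : U) : min (infEDist x (A : Set U)) 1 ≠ ⊤ :=
  ne_top_of_le_ne_top (by simp) (min_le_right _ _)

theorem tdist_le_add {A B : Closeds U} {x y : U} {c : ℝ} (hc : 0 ≤ c)
    (h : infEDist x (A : Set U) ≤ infEDist y (B : Set U) + ENNReal.ofReal c) :
    tdist A x ≤ tdist B y + c := by
  unfold tdist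
  have h1 : min (infEDist x (A : Set U)) 1 ≤ min (infEDist y (B : Set U)) 1 + ENNReal.ofReal c := by
    rcases le_total (infEDist y (B : Set U)) 1 with h2 | h2
    · rw [min_eq_left h2]
      exact (min_le_left _ _).trans h
    · rw [min_eq_right h2]
      exact (min_le_right _ _).trans le_self_add
  have h2 := ENNReal.toReal_mono (ENNReal.add_ne_top.2 ⟨tdist_ne_top B y, ENNReal.ofReal_ne_top⟩) h1
  rwa [ENNReal.toReal_add (tdist_ne_top B y) ENNReal.ofReal_ne_top, ENNReal.toReal_ofReal hc] at h2

theorem tdist_lip (A : Closeds U) (x y : U) : tdist A x ≤ tdist A y + dist x y := by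
  apply tdist_le_add dist_nonneg
  rw [← edist_dist]
  exact infEDist_le_infEDist_add_edist

theorem infEDist_le_of_tdist_le {A : Closeds U} {x : U} {c : ℝ} (hc : c < 1)
    (h : tdist A x ≤ c) : infEDist x (A : Set U) ≤ ENNReal.ofReal c := by
  unfold tdist at h
  have h1 : min (infEDist x (A : Set U)) 1 ≤ ENNReal.ofReal c :=
    ENNReal.le_ofReal_iff_toReal_le (tdist_ne_top A x) (ENNReal.toReal_nonneg.trans h) |>.2 h
  rcases min_le_iff.1 h1 with h2 | h2
  · exact h2
  · exfalso
    have : ENNReal.ofReal c < 1 := by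
      rw [← ENNReal.ofReal_one]
      exact (ENNReal.ofReal_lt_ofReal_iff one_pos).2 hc
    exact absurd h2 (not_le.2 this)

variable (D : Set U)

/-- Embedding of the countable index set. -/
def emb : Option (D × ℕ) → Option (U × ℕ) := Option.map (fun q => (q.1.1, q.2))

omit [MetricSpace U] in
theorem emb_injective : Function.Injective (emb D) := by
  apply Option.map_injective
  rintro ⟨a, k⟩ ⟨b, l⟩ h
  simp only [Prod.mk.injEq] at h
  exact Prod.ext (Subtype.ext h.1) h.2

variable (e : ℕ ≃ Option (D × ℕ))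

/-- The coding map from closed sets to metrics on the natural numbers. -/
noncomputable def code (A : Closeds U) : NatMetric :=
  ⟨fun m n => wd (tdist A) (emb D (e m)) (emb D (e n)), by
    intro m n
    rw [wd_eq_zero (tdist_nonneg A), (emb_injective D).eq_iff, e.injective.eq_iff], fun m n =>
    wd_comm _ _, fun m n k => wd_triangle (tdist_nonneg A) (tdist_le_one A) (tdist_lip A) _ _ _⟩

theorem code_apply (A : Closeds U) (m n : ℕ) :
    (code D e A).1 m n = wd (tdist A) (emb D (e m)) (emb D (e n)) := rfl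

theorem code_none_some (A : Closeds U) (m n : ℕ) (hm : e m = none) (x : D) (k : ℕ)
    (hn : e n = some (x, k)) :
    (code D e A).1 m n = 8 ^ (k + 1) + (if k = 0 then tdist A x.1 else 0) := by
  rw [code_apply, hm, hn]
  rfl

theorem code_none_none (A : Closeds U) (m n : ℕ) (hm : e m = none) (hn : e n = none) :
    (code D e A).1 m n = 0 := by
  rw [code_apply, hm, hn]
  rfl

theorem code_some_some (A : Closeds U) (m n : ℕ) (x y : D) (k l : ℕ) (hm : e m = some (x, k))
    (hn : e n = some (y, l)) :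
    (code D e A).1 m n = gap k l + lev (min k l) (dist x.1 y.1) := by
  rw [code_apply, hm, hn]
  rfl

/-- Measurability of the coding map. -/
theorem measurable_tdist (x : U) : @Measurable _ _ (effros U) _ (fun A : Closeds U => tdist A x) := by
  let _ := effros U
  unfold tdist
  apply Measurable.ennreal_toReal
  apply Measurable.min _ measurable_const
  apply measurable_of_Iio
  intro r
  have : (fun A : Closeds U => infEDist x (A : Set U)) ⁻¹' Iio r =
      {A : Closeds U | ((A : Set U) ∩ {y | edist x y < r}).Nonempty} := by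
    ext A
    simp only [mem_preimage, mem_Iio, infEDist_lt_iff, mem_ofPred_eq]
    constructor
    · rintro ⟨y, hy, h⟩
      exact ⟨y, hy, h⟩
    · rintro ⟨y, hy, h⟩
      exact ⟨y, hy, h⟩
  rw [this]
  apply MeasurableSpace.measurableSet_generateFrom
  exact ⟨{y | edist x y < r}, isOpen_lt (continuous_const.edist continuous_id) continuous_const,
    rfl⟩

theorem measurable_into_natMetric {X : Type v} (mX : MeasurableSpace X) (F : X → NatMetric)
    (h : ∀ m n, @Measurable _ _ mX _ (fun x => (F x).1 m n)) :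
    @Measurable _ _ mX (borel NatMetric) F := by
  have h1 : borel NatMetric = MeasurableSpace.comap (fun f : NatMetric => f.1)
      (borel (ℕ → ℕ → ℝ)) := borel_comap
  rw [h1, measurable_comap_iff]
  have h2 : borel (ℕ → ℕ → ℝ) = MeasurableSpace.pi :=
    (BorelSpace.measurable_eq (α := ℕ → ℕ → ℝ)).symm
  rw [h2]
  apply measurable_pi_iff.2
  intro m
  apply measurable_pi_iff.2
  intro n
  exact h m n

theorem measurable_code : @Measurable _ _ (effros U) (borel NatMetric) (code D e) := by
  apply measurable_into_natMetric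
  intro m n
  rcases hm : e m with _ | ⟨x, k⟩ <;> rcases hn : e n with _ | ⟨y, l⟩
  · have : (fun A : Closeds U => (code D e A).1 m n) = fun _ => 0 := by
      funext A
      exact code_none_none D e A m n hm hn
    rw [this]
    exact measurable_const
  · have : (fun A : Closeds U => (code D e A).1 m n) =
        fun A => 8 ^ (l + 1) + (if l = 0 then tdist A y.1 else 0) := by
      funext A
      exact code_none_some D e A m n hm y l hn
    rw [this]
    split_ifs
    · exact (measurable_tdist y.1).const_add _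
    · exact measurable_const
  · have : (fun A : Closeds U => (code D e A).1 m n) =
        fun A => 8 ^ (k + 1) + (if k = 0 then tdist A x.1 else 0) := by
      funext A
      rw [(code D e A).2.2.1]
      exact code_none_some D e A n m hn x k hm
    rw [this]
    split_ifs
    · exact (measurable_tdist x.1).const_add _
    · exact measurable_const
  · have : (fun A : Closeds U => (code D e A).1 m n) =
        fun A => gap k l + lev (min k l) (dist x.1 y.1) := by
      funext A
      exact code_some_some D e A m n x y k l hm hn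
    rw [this]
    exact measurable_const

theorem abs_lev_sub_le (j : ℕ) {s t c : ℝ} (hs : 0 ≤ s) (ht : 0 ≤ t) (hc : 0 ≤ c)
    (h : |s - t| ≤ c) : |lev j s - lev j t| ≤ 2 ^ j * c := by
  rw [abs_le] at h
  have h1 : lev j s ≤ lev j t + 2 ^ j * c := by
    calc lev j s ≤ lev j (t + c) := lev_mono j (by linarith)
      _ ≤ lev j t + lev j c := lev_add_le j ht hc
      _ ≤ lev j t + 2 ^ j * c := by linarith [lev_le' j c]
  have h2 : lev j t ≤ lev j s + 2 ^ j * c := by
    calc lev j t ≤ lev j (s + c) := lev_mono j (by linarith)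
      _ ≤ lev j s + lev j c := lev_add_le j hs hc
      _ ≤ lev j s + 2 ^ j * c := by linarith [lev_le' j c]
  rw [abs_le]
  constructor <;> linarith

theorem abs_lev_dist_sub_le (j k l : ℕ) (hk : j ≤ k) (hl : j ≤ l) {x x' u u' : U} {η : ℝ}
    (h1 : 2 ^ k * dist x x' ≤ η) (h2 : 2 ^ l * dist u u' ≤ η) :
    |lev j (dist x u) - lev j (dist x' u')| ≤ 2 * η := by
  have h3 : |dist x u - dist x' u'| ≤ dist x x' + dist u u' := by
    have h4 := dist_triangle4 x x' u' u
    have h5 := dist_triangle4 x' x u u'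
    rw [dist_comm x' x] at h5
    rw [dist_comm u' u] at h4
    rw [abs_le]
    constructor <;> linarith
  refine (abs_lev_sub_le j dist_nonneg dist_nonneg (by positivity) h3).trans ?_
  have h6 : (2 : ℝ) ^ j * dist x x' ≤ 2 ^ k * dist x x' :=
    mul_le_mul_of_nonneg_right (pow_le_pow_right₀ (by norm_num) hk) dist_nonneg
  have h7 : (2 : ℝ) ^ j * dist u u' ≤ 2 ^ l * dist u u' :=
    mul_le_mul_of_nonneg_right (pow_le_pow_right₀ (by norm_num) hl) dist_nonneg
  rw [mul_add]
  linarith

theorem decode_none (hU : IsUrysohn U) (hD : Dense D) (A B : Closeds U) (R : ℕ → ℕ → Prop)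
    (hR2 : ∀ n, ∃ m, R m n) (η : ℝ) (hη : η ≤ 1 / 100)
    (hR : ∀ m n m' n', R m n → R m' n' → |(code D e A).1 m m' - (code D e B).1 n n'| ≤ η)
    (m n : ℕ) (h : R m n) (hm : e m = none) : e n = none := by
  by_contra hne
  obtain ⟨⟨y, l⟩, hy⟩ := Option.ne_none_iff_exists'.1 hne
  obtain ⟨z, hz⟩ := hU.extension {y.1} (fun _ => 3 / 4 * (1 / 2) ^ l) (by
    intro a ha b hb
    rw [Finset.mem_singleton] at ha hb
    subst ha
    subst hb
    rw [dist_self, sub_self, abs_zero]
    exact ⟨le_rfl, by positivity⟩)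
  have hz1 := hz y.1 (Finset.mem_singleton_self _)
  obtain ⟨y', hy'D, hy'⟩ := hD.exists_dist_lt z
    (show (0 : ℝ) < 1 / 8 * (1 / 2) ^ l by positivity)
  have h2l : (2 : ℝ) ^ l * (1 / 2) ^ l = 1 := by
    rw [← mul_pow]
    norm_num
  have h2pos : (0 : ℝ) < 2 ^ l := by positivity
  have h3 : |dist y.1 y' - 3 / 4 * (1 / 2) ^ l| ≤ 1 / 8 * (1 / 2) ^ l := by
    have h4 := dist_triangle y.1 z y'
    have h5 := dist_triangle z y' y.1
    rw [dist_comm y.1 z] at h4
    rw [dist_comm y' y.1] at h5
    rw [abs_le]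
    constructor <;> linarith
  rw [abs_le] at h3
  have h4 : lev l (dist y.1 y') ≤ 7 / 8 := by
    refine (lev_le' _ _).trans ?_
    nlinarith [h3.2]
  have h5 : 5 / 8 ≤ lev l (dist y.1 y') := by
    unfold lev
    apply le_min
    · nlinarith [h3.1]
    · have : (1 : ℝ) ≤ 4 ^ l := one_le_pow₀ (by norm_num)
      linarith
  let n' : ℕ := e.symm (some (⟨y', hy'D⟩, l))
  have hn' : e n' = some (⟨y', hy'D⟩, l) := e.apply_symm_apply _
  obtain ⟨m', hm'⟩ := hR2 n'
  have h6 := hR m n m' n' h hm'
  rw [code_some_some D e B n n' y ⟨y', hy'D⟩ l l hy hn', min_self] at h6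
  have h7 : gap l l = 0 := by
    unfold gap
    simp
  rw [h7, zero_add, abs_le] at h6
  change _ ≤ (code D e A).1 m m' - lev l (dist y.1 y') ∧
    (code D e A).1 m m' - lev l (dist y.1 y') ≤ _ at h6
  rcases hm'' : e m' with _ | ⟨x, k⟩
  · rw [code_none_none D e A m m' hm hm''] at h6
    linarith [h6.1]
  · rw [code_none_some D e A m m' hm x k hm''] at h6
    have h8 := eight_le k
    have h9 : 0 ≤ (if k = 0 then tdist A x.1 else 0) := by
      split_ifs
      · exact tdist_nonneg _ _
      · exact le_rfl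
    linarith [h6.2]

theorem decode_none' (hU : IsUrysohn U) (hD : Dense D) (A B : Closeds U) (R : ℕ → ℕ → Prop)
    (hR1 : ∀ m, ∃ n, R m n) (η : ℝ) (hη : η ≤ 1 / 100)
    (hR : ∀ m n m' n', R m n → R m' n' → |(code D e A).1 m m' - (code D e B).1 n n'| ≤ η)
    (m n : ℕ) (h : R m n) (hn : e n = none) : e m = none :=
  decode_none D e hU hD B A (fun n m => R m n) hR1 η hη (by
    intro n m n' m' h1 h2
    rw [abs_sub_comm]
    exact hR m n m' n' h1 h2) n m h hn

theorem decode_level (hU : IsUrysohn U) (hD : Dense D) (A B : Closeds U) (R : ℕ → ℕ → Prop)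
    (hR1 : ∀ m, ∃ n, R m n) (hR2 : ∀ n, ∃ m, R m n) (η : ℝ) (hη : η ≤ 1 / 100)
    (hR : ∀ m n m' n', R m n → R m' n' → |(code D e A).1 m m' - (code D e B).1 n n'| ≤ η)
    (m n : ℕ) (h : R m n) (x : D) (k : ℕ) (hm : e m = some (x, k)) :
    ∃ y : D, e n = some (y, k) ∧ (k = 0 → |tdist A x.1 - tdist B y.1| ≤ η) := by
  let m0 : ℕ := e.symm none
  have hm0 : e m0 = none := e.apply_symm_apply _
  obtain ⟨n0, hn0⟩ := hR1 m0
  have hn0' := decode_none D e hU hD A B R hR2 η hη hR m0 n0 hn0 hm0
  have hne : e n ≠ none := by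
    intro hn
    have := decode_none' D e hU hD A B R hR1 η hη hR m n h hn
    rw [hm] at this
    exact absurd this (by simp)
  obtain ⟨⟨y, l⟩, hy⟩ := Option.ne_none_iff_exists'.1 hne
  have h1 := hR m0 n0 m n hn0 h
  rw [code_none_some D e A m0 m hm0 x k hm, code_none_some D e B n0 n hn0' y l hy] at h1
  have h2 : ∀ (C : Closeds U) (z : U) (j : ℕ), 0 ≤ (if j = 0 then tdist C z else 0) ∧
      (if j = 0 then tdist C z else 0) ≤ 1 := by
    intro C z j
    split_ifs
    · exact ⟨tdist_nonneg _ _, tdist_le_one _ _⟩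
    · exact ⟨le_rfl, zero_le_one⟩
  have h3 := h2 A x.1 k
  have h4 := h2 B y.1 l
  have h5 := eight_le k
  have h6 := eight_le l
  have hkl : k = l := by
    by_contra hkl
    rw [abs_le] at h1
    rcases lt_or_gt_of_ne hkl with h7 | h7
    · have h8 : (8 : ℝ) ^ (k + 1 + 1) ≤ 8 ^ (l + 1) :=
        pow_le_pow_right₀ (by norm_num) (by omega)
      rw [pow_succ] at h8
      linarith [h1.1]
    · have h8 : (8 : ℝ) ^ (l + 1 + 1) ≤ 8 ^ (k + 1) :=
        pow_le_pow_right₀ (by norm_num) (by omega)
      rw [pow_succ] at h8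
      linarith [h1.2]
  subst hkl
  refine ⟨y, hy, fun hk => ?_⟩
  rw [if_pos hk, if_pos hk] at h1
  rwa [add_sub_add_left_eq_sub] at h1

/-- Decoding: a correspondence of small distortion gives an isometry of the Urysohn space. -/
theorem decode (hU : IsUrysohn U) (hD : Dense D) (A B : Closeds U) (R : ℕ → ℕ → Prop)
    (hR1 : ∀ m, ∃ n, R m n) (hR2 : ∀ n, ∃ m, R m n) (η : ℝ) (hη0 : 0 < η) (hη : η ≤ 1 / 100)
    (hR : ∀ m n m' n', R m n → R m' n' → |(code D e A).1 m m' - (code D e B).1 n n'| ≤ η) :
    rhoIso U A B ≤ ENNReal.ofReal (18 * η) := by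
  have := hU.complete
  let S : ℕ → U → U → Prop := fun k x y => ∃ (x' y' : D) (m n : ℕ), R m n ∧
    e m = some (x', k) ∧ e n = some (y', k) ∧ 2 ^ k * dist x x'.1 ≤ η ∧ 2 ^ k * dist y y'.1 ≤ η
  have hnear : ∀ (k : ℕ) (x : U), ∃ x' : D, 2 ^ k * dist x x'.1 ≤ η := by
    intro k x
    obtain ⟨x', hx'D, hx'⟩ := hD.exists_dist_lt x (show (0 : ℝ) < η / 2 ^ k by positivity)
    refine ⟨⟨x', hx'D⟩, ?_⟩
    rw [lt_div_iff₀ (by positivity), mul_comm] at hx'
    exact hx'.le
  have hS1 : ∀ k x, ∃ y, S k x y := by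
    intro k x
    obtain ⟨x', hx'⟩ := hnear k x
    obtain ⟨n, hn⟩ := hR1 (e.symm (some (x', k)))
    obtain ⟨y', hy', -⟩ := decode_level D e hU hD A B R hR1 hR2 η hη hR _ n hn x' k
      (e.apply_symm_apply _)
    refine ⟨y'.1, x', y', _, n, hn, e.apply_symm_apply _, hy', hx', ?_⟩
    rw [dist_self, mul_zero]
    exact hη0.le
  have hS2 : ∀ k y, ∃ x, S k x y := by
    intro k y
    obtain ⟨y', hy'⟩ := hnear k y
    obtain ⟨m, hm⟩ := hR2 (e.symm (some (y', k)))
    obtain ⟨x', hx', -⟩ := decode_level D e hU hD B A (fun n m => R m n) hR2 hR1 η hη (by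
      intro n m n' m' h1 h2
      rw [abs_sub_comm]
      exact hR m n m' n' h1 h2) _ m hm y' k (e.apply_symm_apply _)
    refine ⟨x'.1, x', y', m, _, hm, hx', e.apply_symm_apply _, ?_, hy'⟩
    rw [dist_self, mul_zero]
    exact hη0.le
  obtain ⟨φ, hφ⟩ := exists_isometryEquiv_of_levels S hS1 hS2 (5 * η) (by linarith) (by
    rintro k l x y u v ⟨x', y', m, n, h1, hm, hn, hx, hy⟩ ⟨u', v', m', n', h1', hm', hn', hu, hv⟩
    have h2 := hR m n m' n' h1 h1'
    rw [code_some_some D e A m m' x' u' k l hm hm', code_some_some D e B n n' y' v' k l hn hn',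
      add_sub_add_left_eq_sub] at h2
    have h3 := abs_lev_dist_sub_le (min k l) k l (min_le_left _ _) (min_le_right _ _) hx hu
    have h4 := abs_lev_dist_sub_le (min k l) k l (min_le_left _ _) (min_le_right _ _) hy hv
    rw [abs_le] at *
    constructor <;> linarith [h2.1, h2.2, h3.1, h3.2, h4.1, h4.2])
  have hkey : ∀ x, |tdist A x - tdist B (φ x)| ≤ 18 * η := by
    intro x
    obtain ⟨y, hxy⟩ := hS1 0 x
    have h1 := hφ x y hxy
    obtain ⟨x', y', m, n, h2, hm, hn, hx, hy⟩ := hxy
    obtain ⟨y'', hy'', h3⟩ := decode_level D e hU hD A B R hR1 hR2 η hη hR m n h2 x' 0 hm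
    have h4 : y'' = y' := by
      rw [hn] at hy''
      simp only [Option.some.injEq, Prod.mk.injEq, and_true] at hy''
      exact hy''.symm
    subst h4
    have h5 := h3 rfl
    rw [pow_zero, one_mul] at hx hy
    have h6 := tdist_lip A x x'.1
    have h7 := tdist_lip A x'.1 x
    have h8 := tdist_lip B y''.1 y
    have h9 := tdist_lip B y y''.1
    have h10 := tdist_lip B y (φ x)
    have h11 := tdist_lip B (φ x) y
    rw [dist_comm x'.1 x] at h7
    rw [dist_comm y''.1 y] at h8
    rw [dist_comm (φ x) y] at h11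
    rw [abs_le] at *
    constructor <;> linarith [h5.1, h5.2]
  unfold rhoIso
  refine (iInf_le_of_le φ (iInf_le _ (IsometryEquiv.refl U))).trans ?_
  have hrefl : (⇑(IsometryEquiv.refl U) '' (B : Set U)) = (B : Set U) := Set.image_id _
  rw [hrefl]
  apply hausdorffEDist_le_of_infEDist
  · rintro _ ⟨x, hx, rfl⟩
    have h1 : tdist A x = 0 := by
      unfold tdist
      rw [infEDist_zero_of_mem hx]
      simp
    have h2 := hkey x
    rw [h1, zero_sub, abs_neg] at h2
    have h3 := infEDist_le_of_tdist_le (c := 18 * η) (by linarith) ((le_abs_self _).trans h2)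
    exact h3
  · intro y hy
    have h1 : tdist B y = 0 := by
      unfold tdist
      rw [infEDist_zero_of_mem hy]
      simp
    have h2 := hkey (φ.symm y)
    rw [φ.apply_symm_apply, h1, sub_zero] at h2
    have h3 := infEDist_le_of_tdist_le (c := 18 * η) (by linarith) ((le_abs_self _).trans h2)
    have h4 : infEDist (φ (φ.symm y)) (φ '' (A : Set U)) = infEDist (φ.symm y) (A : Set U) :=
      infEDist_image φ.isometry
    rw [φ.apply_symm_apply] at h4
    rw [h4]
    exact h3

/-- Coding is Lipschitz. -/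
theorem code_le (hD : Dense D) (A B : Closeds U) (δ : ℝ) (hδ : 0 < δ)
    (h : rhoIso U A B < ENNReal.ofReal δ) :
    rhoGH (code D e A) (code D e B) ≤ ENNReal.ofReal (2 * δ) := by
  unfold rhoIso at h
  simp only [iInf_lt_iff] at h
  obtain ⟨g, g', h⟩ := h
  let φ : U ≃ᵢ U := g.trans g'.symm
  have h1 : hausdorffEDist (φ '' (A : Set U)) (B : Set U) < ENNReal.ofReal δ := by
    have h2 := hausdorffEDist_image (s := (g '' (A : Set U))) (t := (g' '' (B : Set U)))
      g'.symm.isometry
    rw [← h2] at h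
    have h3 : g'.symm '' (g '' (A : Set U)) = φ '' (A : Set U) := by
      rw [image_image]
      rfl
    have h4 : g'.symm '' (g' '' (B : Set U)) = (B : Set U) := by
      rw [image_image]
      simp
    rwa [h3, h4] at h
  -- key estimate
  have hkey : ∀ x y, |tdist A x - tdist B y| ≤ dist (φ x) y + δ := by
    intro x y
    have h5 : infEDist (φ x) (φ '' (A : Set U)) = infEDist x (A : Set U) :=
      infEDist_image φ.isometry
    have h6 : infEDist x (A : Set U) ≤ infEDist y (B : Set U) +
        ENNReal.ofReal (dist (φ x) y + δ) := by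
      rw [← h5]
      refine (infEDist_le_infEDist_add_hausdorffEDist (s := (B : Set U))).trans ?_
      refine (add_le_add (infEDist_le_infEDist_add_edist (y := y))
        (hausdorffEDist_comm.trans_le h1.le)).trans ?_
      rw [ENNReal.ofReal_add dist_nonneg hδ.le, ← edist_dist, add_assoc]
    have h7 : infEDist y (B : Set U) ≤ infEDist x (A : Set U) +
        ENNReal.ofReal (dist (φ x) y + δ) := by
      rw [← h5]
      refine (infEDist_le_infEDist_add_hausdorffEDist (s := (φ '' (A : Set U)))).trans ?_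
      refine (add_le_add (infEDist_le_infEDist_add_edist (y := φ x)) h1.le).trans ?_
      rw [ENNReal.ofReal_add dist_nonneg hδ.le, ← edist_dist, add_assoc, edist_comm]
    have h8 := tdist_le_add (c := dist (φ x) y + δ) (by positivity) h6
    have h9 := tdist_le_add (c := dist (φ x) y + δ) (by positivity) h7
    rw [abs_le]
    constructor <;> linarith
  let R : ℕ → ℕ → Prop := fun m n => (e m = none ∧ e n = none) ∨
    ∃ (x y : D) (k : ℕ), e m = some (x, k) ∧ e n = some (y, k) ∧ 2 ^ k * dist (φ x.1) y.1 ≤ δ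
  have hnear : ∀ (k : ℕ) (x : U), ∃ x' : D, 2 ^ k * dist x x'.1 ≤ δ := by
    intro k x
    obtain ⟨x', hx'D, hx'⟩ := hD.exists_dist_lt x (show (0 : ℝ) < δ / 2 ^ k by positivity)
    refine ⟨⟨x', hx'D⟩, ?_⟩
    rw [lt_div_iff₀ (by positivity), mul_comm] at hx'
    exact hx'.le
  have hR1 : ∀ m, ∃ n, R m n := by
    intro m
    rcases hm : e m with _ | ⟨x, k⟩
    · exact ⟨e.symm none, Or.inl ⟨hm, e.apply_symm_apply _⟩⟩
    · obtain ⟨y, hy⟩ := hnear k (φ x.1)
      exact ⟨e.symm (some (y, k)), Or.inr ⟨x, y, k, hm, e.apply_symm_apply _, hy⟩⟩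
  have hR2 : ∀ n, ∃ m, R m n := by
    intro n
    rcases hn : e n with _ | ⟨y, k⟩
    · exact ⟨e.symm none, Or.inl ⟨e.apply_symm_apply _, hn⟩⟩
    · obtain ⟨x, hx⟩ := hnear k (φ.symm y.1)
      refine ⟨e.symm (some (x, k)), Or.inr ⟨x, y, k, e.apply_symm_apply _, hn, ?_⟩⟩
      rw [← φ.dist_eq, φ.apply_symm_apply, dist_comm] at hx
      exact hx
  apply rhoGH_le_of_corr (by positivity) R hR1 hR2
  have hpow : ∀ k : ℕ, (1 : ℝ) ≤ 2 ^ k := fun k => one_le_pow₀ (by norm_num)
  rintro m n m' n' (⟨hm, hn⟩ | ⟨x, y, k, hm, hn, h2⟩) (⟨hm', hn'⟩ | ⟨u, v, l, hm', hn', h2'⟩)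
  · rw [code_none_none D e A m m' hm hm', code_none_none D e B n n' hn hn', sub_self, abs_zero]
    positivity
  · rw [code_none_some D e A m m' hm u l hm', code_none_some D e B n n' hn v l hn',
      add_sub_add_left_eq_sub]
    by_cases hl : l = 0
    · rw [if_pos hl, if_pos hl]
      refine (hkey _ _).trans ?_
      have := hpow l
      have h3 : (0 : ℝ) ≤ dist (φ u.1) v.1 := dist_nonneg
      nlinarith
    · rw [if_neg hl, if_neg hl, sub_self, abs_zero]
      positivity
  · rw [(code D e A).2.2.1, (code D e B).2.2.1, code_none_some D e A m' m hm' x k hm,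
      code_none_some D e B n' n hn' y k hn, add_sub_add_left_eq_sub]
    by_cases hl : k = 0
    · rw [if_pos hl, if_pos hl]
      refine (hkey _ _).trans ?_
      have := hpow k
      have h3 : (0 : ℝ) ≤ dist (φ x.1) y.1 := dist_nonneg
      nlinarith
    · rw [if_neg hl, if_neg hl, sub_self, abs_zero]
      positivity
  · rw [code_some_some D e A m m' x u k l hm hm', code_some_some D e B n n' y v k l hn hn',
      add_sub_add_left_eq_sub, ← φ.dist_eq x.1 u.1]
    refine (abs_lev_dist_sub_le (min k l) k l (min_le_left _ _) (min_le_right _ _) h2 h2').trans ?_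
    linarith

end

/-- The orbit pseudometric reduces to the Gromov-Hausdorff distance. -/
theorem rhoIso_reducible (U : Type u) [MetricSpace U] (hU : IsUrysohn U) :
    BUReducible (effros U) (borel NatMetric) (rhoIso U) rhoGH := by
  have := hU.separable
  have := hU.nonempty
  obtain ⟨D, hDc, hD⟩ := TopologicalSpace.exists_countable_dense U
  have : Countable D := hDc.to_subtype
  have : Nonempty D := by
    obtain ⟨x⟩ := hU.nonempty
    obtain ⟨y, hy, -⟩ := hD.exists_dist_lt x one_pos
    exact ⟨⟨y, hy⟩⟩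
  obtain ⟨hden⟩ := nonempty_denumerable (Option (D × ℕ))
  let e : ℕ ≃ Option (D × ℕ) := (Denumerable.eqv (Option (D × ℕ))).symm
  refine ⟨code D e, measurable_code D e, fun ε hε => ?_⟩
  refine ⟨ε / 4, by positivity, min ε 1 / 1000, by positivity, fun A B => ⟨fun h => ?_, fun h => ?_⟩⟩
  · refine (code_le D e hD A B (ε / 4) (by positivity) h).trans_lt ?_
    rw [ENNReal.ofReal_lt_ofReal_iff hε]
    linarith
  · obtain ⟨R, hR1, hR2, hR⟩ := exists_corr h
    have h1 : 0 < min ε 1 := by positivity
    have h2 : min ε 1 ≤ 1 := min_le_right _ _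
    have h3 : min ε 1 ≤ ε := min_le_left _ _
    refine (decode D e hU hD A B R hR1 hR2 (2 * (min ε 1 / 1000)) (by positivity) (by linarith)
      hR).trans_lt ?_
    rw [ENNReal.ofReal_lt_ofReal_iff hε]
    linarith

end Pool.Agent.LibUrysohn
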